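import Pool.Agent.Helper879.ECD.Cuts

set_option autoImplicit false
set_option linter.unusedSectionVars false

/-!
Crossing edges and joins, in graphs given by two end maps.
-/

namespace Pool.Agent.N411.EC

open Finset
open Pool.Agent.Helper879.ECD (cn cn_compl cn_uncross1)

variable {W E : Type} [DecidableEq W]

/-- `e` crosses `X` -/
def Cr (a b : E → W) (X : Finset W) (e : E) : Prop := ¬ (a e ∈ X ↔ b e ∈ X)

instance (a b : E → W) (X : Finset W) (e : E) : Decidable (Cr a b X e) := by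
  unfold Cr; infer_instance

/-- `e` joins `u` and `w` -/
def Jn (a b : E → W) (e : E) (u w : W) : Prop := (a e = u ∧ b e = w) ∨ (a e = w ∧ b e = u)

variable {a b : E → W}

lemma Jn.symm {e : E} {u w : W} (h : Jn a b e u w) : Jn a b e w u := by
  rcases h with h | h
  · exact Or.inr h
  · exact Or.inl h

lemma jn_self (e : E) : Jn a b e (a e) (b e) := Or.inl ⟨rfl, rfl⟩

lemma Jn.cr {e : E} {u w : W} (h : Jn a b e u w) (X : Finset W) :
    Cr a b X e ↔ ¬ (u ∈ X ↔ w ∈ X) := by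
  unfold Cr
  rcases h with ⟨h1, h2⟩ | ⟨h1, h2⟩
  · rw [h1, h2]
  · rw [h1, h2, Iff.comm (a := w ∈ X)]

lemma Jn.ncr {e : E} {u w : W} (h : Jn a b e u w) (X : Finset W) :
    ¬ Cr a b X e ↔ (u ∈ X ↔ w ∈ X) := by
  rw [h.cr, not_not]

/-- the ends of an edge are determined -/
lemma Jn.right_unique {e : E} {u w w' : W} (h : Jn a b e u w) (h' : Jn a b e u w') : w = w' := by
  rcases h with ⟨h1, h2⟩ | ⟨h1, h2⟩ <;> rcases h' with ⟨h3, h4⟩ | ⟨h3, h4⟩
  · rw [← h2, h4]
  · rw [← h2, h4, ← h1, h3]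
  · rw [← h1, h3, ← h2, h4]
  · rw [← h1, h3]

lemma Jn.pair {e : E} {u w u' w' : W} (h : Jn a b e u w) (h' : Jn a b e u' w') :
    (u = u' ∧ w = w') ∨ (u = w' ∧ w = u') := by
  rcases h with ⟨h1, h2⟩ | ⟨h1, h2⟩ <;> rcases h' with ⟨h3, h4⟩ | ⟨h3, h4⟩
  · exact Or.inl ⟨h1.symm.trans h3, h2.symm.trans h4⟩
  · exact Or.inr ⟨h1.symm.trans h3, h2.symm.trans h4⟩
  · exact Or.inr ⟨h2.symm.trans h4, h1.symm.trans h3⟩
  · exact Or.inl ⟨h2.symm.trans h4, h1.symm.trans h3⟩

/-- a crossing edge joins a vertex inside to a vertex outside -/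
lemma exists_jn_of_cr {X : Finset W} {e : E} (h : Cr a b X e) :
    ∃ u w, u ∈ X ∧ w ∉ X ∧ Jn a b e u w := by
  unfold Cr at h
  by_cases h1 : a e ∈ X
  · exact ⟨a e, b e, h1, fun h2 => h ⟨fun _ => h2, fun _ => h1⟩, jn_self e⟩
  · refine ⟨b e, a e, ?_, h1, (jn_self e).symm⟩
    by_contra h2
    exact h ⟨fun h => absurd h h1, fun h => absurd h h2⟩

lemma cr_of_jn {X : Finset W} {e : E} {u w : W} (h : Jn a b e u w) (hu : u ∈ X) (hw : w ∉ X) :
    Cr a b X e := by
  rw [h.cr]; tauto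

lemma cr_compl [Fintype W] {X : Finset W} {e : E} : Cr a b Xᶜ e ↔ Cr a b X e := by
  unfold Cr; simp only [Finset.mem_compl]; tauto

lemma cn_eq [Fintype E] (X : Finset W) : cn a b univ X = (univ.filter (fun e => Cr a b X e)).card := by
  unfold cn Cr; rfl

variable [Fintype W] [Fintype E]

/-- all cuts of nontrivial sets have at least three edges -/
def TEC (a b : E → W) : Prop :=
  ∀ X : Finset W, X.Nonempty → X ≠ univ → 3 ≤ cn a b univ X

variable [DecidableEq E]

/-- a cut covered by two edges is trivial -/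
lemma TEC.no_two (h3 : TEC a b) {X : Finset W} (h1 : X.Nonempty) (h2 : X ≠ univ) (e f : E)
    (h : ∀ g, Cr a b X g → g = e ∨ g = f) : False := by
  have h4 := h3 X h1 h2
  rw [cn_eq] at h4
  have h5 : univ.filter (fun e => Cr a b X e) ⊆ {e, f} := by
    intro g hg
    rw [Finset.mem_filter] at hg
    rw [Finset.mem_insert, Finset.mem_singleton]
    exact h g hg.2
  have h6 := Finset.card_le_card h5
  have h7 : ({e, f} : Finset E).card ≤ 2 := Finset.card_le_two
  omega

/-- two edges at a vertex of degree at least four which are not in a common cut of size three -/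
lemma exists_pair (h3 : TEC a b) (v : W) (hv : 4 ≤ cn a b univ {v}) :
    ∃ e f : E, e ≠ f ∧ ∃ u w, u ≠ v ∧ w ≠ v ∧ Jn a b e v u ∧ Jn a b f v w ∧
      ∀ X : Finset W, v ∉ X → u ∈ X → w ∈ X → 4 ≤ cn a b univ X := by
  classical
  have hend : ∀ e, Cr a b {v} e → ∃ u, u ≠ v ∧ Jn a b e v u := by
    intro e he
    obtain ⟨x, y, hx, hy, hj⟩ := exists_jn_of_cr he
    rw [Finset.mem_singleton] at hx hy
    exact ⟨y, hy, hx ▸ hj⟩
  have h4 : 4 ≤ (univ.filter (fun e => Cr a b {v} e)).card := by rw [← cn_eq]; exact hv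
  obtain ⟨e1, he1⟩ := Finset.card_pos.1 (show 0 < (univ.filter (fun e => Cr a b {v} e)).card by omega)
  rw [Finset.mem_filter] at he1
  obtain ⟨u1, hu1, hj1⟩ := hend e1 he1.2
  by_contra hcon
  have hX : ∀ f w, f ≠ e1 → w ≠ v → Jn a b f v w →
      ∃ X : Finset W, v ∉ X ∧ cn a b univ X = 3 ∧ u1 ∈ X ∧ w ∈ X := by
    intro f w hf hw hj
    by_contra h5
    apply hcon
    refine ⟨e1, f, hf.symm, u1, w, hu1, hw, hj1, hj, ?_⟩
    intro X hvX huX hwX
    have h6 := h3 X ⟨u1, huX⟩ (fun h => hvX (h ▸ Finset.mem_univ v))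
    by_contra h7
    exact h5 ⟨X, hvX, by omega, huX, hwX⟩
  -- a tight set of maximum size
  let P : Finset (Finset W) := univ.filter (fun X => v ∉ X ∧ cn a b univ X = 3 ∧ u1 ∈ X)
  have hmemP : ∀ X, X ∈ P ↔ v ∉ X ∧ cn a b univ X = 3 ∧ u1 ∈ X := by
    intro X; simp [P]
  have hP : P.Nonempty := by
    have h5 : ∃ f ∈ univ.filter (fun e => Cr a b {v} e), f ≠ e1 := by
      by_contra h5
      push Not at h5
      have h6 : univ.filter (fun e => Cr a b {v} e) ⊆ {e1} := fun f hf =>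
        Finset.mem_singleton.2 (h5 f hf)
      have h8 := Finset.card_le_card h6
      rw [Finset.card_singleton] at h8
      omega
    obtain ⟨f, hf, hfe⟩ := h5
    rw [Finset.mem_filter] at hf
    obtain ⟨w, hw, hj⟩ := hend f hf.2
    obtain ⟨X, h1, h2, h6, -⟩ := hX f w hfe hw hj
    exact ⟨X, (hmemP X).2 ⟨h1, h2, h6⟩⟩
  obtain ⟨S, hS, hmax⟩ := Finset.exists_max_image P Finset.card hP
  rw [hmemP] at hS
  obtain ⟨hvS, hS3, huS⟩ := hS
  have hall : ∀ f w, w ≠ v → Jn a b f v w → w ∈ S := by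
    intro f w hw hj
    by_cases hf : f = e1
    · have : w = u1 := (hf ▸ hj).right_unique hj1
      rw [this]; exact huS
    · obtain ⟨X, h1, h2, h5, h6⟩ := hX f w hf hw hj
      have hu := cn_uncross1 a b univ S X
      have hi := h3 (S ∩ X) ⟨u1, Finset.mem_inter.2 ⟨huS, h5⟩⟩ (by
        intro h
        have : v ∈ S ∩ X := by rw [h]; exact Finset.mem_univ _
        exact hvS (Finset.mem_inter.1 this).1)
      have hvu : v ∉ S ∪ X := by
        rw [Finset.mem_union]; tauto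
      have hj := h3 (S ∪ X) ⟨u1, Finset.mem_union_left _ huS⟩
        (fun h => hvu (h ▸ Finset.mem_univ v))
      have hU3 : cn a b univ (S ∪ X) = 3 := by omega
      have hmm := hmax (S ∪ X) ((hmemP _).2 ⟨hvu, hU3, Finset.mem_union_left _ huS⟩)
      have heq : S = S ∪ X := Finset.eq_of_subset_of_card_le Finset.subset_union_left hmm
      rw [heq]; exact Finset.mem_union_right _ h6
  have hsub : univ.filter (fun e => Cr a b {v} e) ⊆ univ.filter (fun e => Cr a b S e) := by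
    intro f hf
    rw [Finset.mem_filter] at hf ⊢
    obtain ⟨w, hw, hj⟩ := hend f hf.2
    exact ⟨Finset.mem_univ _, cr_of_jn hj.symm (hall f w hw hj) hvS⟩
  have h9 := Finset.card_le_card hsub
  rw [cn_eq] at hS3
  omega

end Pool.Agent.N411.EC
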