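import Pool.Agent.N411.EC.Base

set_option autoImplicit false
set_option linter.unusedSectionVars false

/-!
Connected vertex sets and paths in them.
-/

namespace Pool.Agent.N411.EC

open Finset
open Pool.Agent.Helper879.ECD (cn cn_compl cn_uncross1)

variable {W E : Type} [DecidableEq W] {a b : E → W}

/-- the set induces a connected graph (cut form) -/
def Con (a b : E → W) (K : Finset W) : Prop :=
  ∀ X ⊆ K, X.Nonempty → X ≠ K → ∃ e u w, u ∈ X ∧ w ∈ K ∧ w ∉ X ∧ Jn a b e u w

lemma con_singleton (u : W) : Con a b {u} := by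
  intro X hX hne hX2
  exfalso
  obtain ⟨x, hx⟩ := hne
  apply hX2
  ext y
  rw [Finset.mem_singleton]
  constructor
  · intro hy
    exact Finset.mem_singleton.1 (hX hy)
  · rintro rfl
    have := Finset.mem_singleton.1 (hX hx)
    rw [← this]; exact hx

/-- a set with no crossing edge inside a connected set is everything or nothing -/
lemma Con.all {K : Finset W} (hK : Con a b K) (p : W → Prop) [DecidablePred p]
    (h : ∀ e u w, u ∈ K → w ∈ K → Jn a b e u w → (p u ↔ p w)) {x y : W} (hx : x ∈ K)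
    (hy : y ∈ K) (hpx : p x) : p y := by
  by_contra hpy
  obtain ⟨e, u, w, hu, hw, hwX, hj⟩ := hK (K.filter p) (Finset.filter_subset _ _)
    ⟨x, Finset.mem_filter.2 ⟨hx, hpx⟩⟩ (by
      intro h2
      have : y ∈ K.filter p := by rw [h2]; exact hy
      exact hpy (Finset.mem_filter.1 this).2)
  rw [Finset.mem_filter] at hu hwX
  exact hwX ⟨hw, (h e u w hu.1 hw hj).1 hu.2⟩

/-- conversely -/
lemma con_of_all {K : Finset W}
    (h : ∀ p : W → Prop, (∀ e u w, u ∈ K → w ∈ K → Jn a b e u w → (p u ↔ p w)) →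
      ∀ x ∈ K, ∀ y ∈ K, p x → p y) : Con a b K := by
  intro X hX hne hX2
  by_contra hcon
  push Not at hcon
  obtain ⟨x, hx⟩ := hne
  apply hX2
  refine Finset.Subset.antisymm hX ?_
  intro y hy
  refine h (fun w => w ∈ X) ?_ x (hX hx) y hy hx
  intro e u w hu hw hj
  constructor
  · intro h1
    by_contra h2
    exact hcon e u w h1 hw h2 hj
  · intro h1
    by_contra h2
    exact hcon e w u h1 hu h2 hj.symm

/-- union of two connected sets joined by an edge -/
lemma con_union {K L : Finset W} (hK : Con a b K) (hL : Con a b L) {e : E} {u w : W}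
    (hu : u ∈ K) (hw : w ∈ L) (hj : Jn a b e u w) : Con a b (K ∪ L) := by
  classical
  apply con_of_all
  intro p hp x hx y hy hpx
  have hpK : ∀ x ∈ K, ∀ y ∈ K, p x → p y := fun x hx y hy => hK.all p
    (fun e u w h1 h2 hj => hp e u w (Finset.mem_union_left _ h1) (Finset.mem_union_left _ h2) hj)
    hx hy
  have hpL : ∀ x ∈ L, ∀ y ∈ L, p x → p y := fun x hx y hy => hL.all p
    (fun e u w h1 h2 hj => hp e u w (Finset.mem_union_right _ h1) (Finset.mem_union_right _ h2) hj)
    hx hy
  have huw : p u ↔ p w := hp e u w (Finset.mem_union_left _ hu) (Finset.mem_union_right _ hw) hj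
  rw [Finset.mem_union] at hx hy
  rcases hx with hx | hx <;> rcases hy with hy | hy
  · exact hpK x hx y hy hpx
  · exact hpL w hw y hy (huw.1 (hpK x hx u hu hpx))
  · exact hpK u hu y hy (huw.2 (hpL x hx w hw hpx))
  · exact hpL x hx y hy hpx

/-- union of two intersecting connected sets -/
lemma con_union' {K L : Finset W} (hK : Con a b K) (hL : Con a b L) {u : W}
    (hu : u ∈ K) (hw : u ∈ L) : Con a b (K ∪ L) := by
  classical
  apply con_of_all
  intro p hp x hx y hy hpx
  have hpK : ∀ x ∈ K, ∀ y ∈ K, p x → p y := fun x hx y hy => hK.all p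
    (fun e u w h1 h2 hj => hp e u w (Finset.mem_union_left _ h1) (Finset.mem_union_left _ h2) hj)
    hx hy
  have hpL : ∀ x ∈ L, ∀ y ∈ L, p x → p y := fun x hx y hy => hL.all p
    (fun e u w h1 h2 hj => hp e u w (Finset.mem_union_right _ h1) (Finset.mem_union_right _ h2) hj)
    hx hy
  rw [Finset.mem_union] at hx hy
  rcases hx with hx | hx <;> rcases hy with hy | hy
  · exact hpK x hx y hy hpx
  · exact hpL u hw y hy (hpK x hx u hu hpx)
  · exact hpK u hu y hy (hpL x hx u hw hpx)
  · exact hpL x hx y hy hpx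

/-- adding a neighbour -/
lemma con_insert {K : Finset W} (hK : Con a b K) {e : E} {u w : W} (hu : u ∈ K)
    (hj : Jn a b e u w) : Con a b (insert w K) := by
  have h := con_union hK (con_singleton (a := a) (b := b) w) hu (Finset.mem_singleton_self w) hj
  rwa [Finset.union_comm, ← Finset.insert_eq] at h

/-- a maximal connected subset of `M` containing `y` is closed -/
lemma exists_comp {M : Finset W} {y : W} (hy : y ∈ M) :
    ∃ X ⊆ M, y ∈ X ∧ Con a b X ∧ ∀ e u w, u ∈ X → w ∈ M → Jn a b e u w → w ∈ X := by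
  classical
  obtain ⟨X, hX, hmax⟩ := Finset.exists_max_image (M.powerset.filter (fun X => y ∈ X ∧ Con a b X))
    Finset.card ⟨{y}, by
      rw [Finset.mem_filter, Finset.mem_powerset, Finset.singleton_subset_iff]
      exact ⟨hy, Finset.mem_singleton_self y, con_singleton y⟩⟩
  rw [Finset.mem_filter, Finset.mem_powerset] at hX
  refine ⟨X, hX.1, hX.2.1, hX.2.2, ?_⟩
  intro e u w hu hw hj
  by_contra hcon
  have h1 := hmax (insert w X) (by
    rw [Finset.mem_filter, Finset.mem_powerset]
    exact ⟨Finset.insert_subset hw hX.1, Finset.mem_insert_of_mem hX.2.1,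
      con_insert hX.2.2 hu hj⟩)
  rw [Finset.card_insert_of_notMem hcon] at h1
  omega

/-- an ear at `A`: a path `v 1, ..., v m` outside `A` with ends attached to `v 0` and `v (m+1)` -/
structure Ear (a b : E → W) (A : Finset W) (m : ℕ) (v : ℕ → W) (g : ℕ → E) : Prop where
  one_le : 1 ≤ m
  jn : ∀ i ≤ m, Jn a b (g i) (v i) (v (i + 1))
  left : v 0 ∈ A
  right : v (m + 1) ∈ A
  nmem : ∀ i, 1 ≤ i → i ≤ m → v i ∉ A
  inj : ∀ i j, 1 ≤ i → i ≤ m → 1 ≤ j → j ≤ m → v i = v j → i = j
  ne : g 0 ≠ g m

/-- vertex set of an ear -/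
def seg (v : ℕ → W) (i j : ℕ) : Finset W := (Finset.Icc i j).image v

lemma mem_seg {v : ℕ → W} {i j : ℕ} {x : W} : x ∈ seg v i j ↔ ∃ k, i ≤ k ∧ k ≤ j ∧ v k = x := by
  unfold seg
  rw [Finset.mem_image]
  constructor
  · rintro ⟨k, hk, rfl⟩
    rw [Finset.mem_Icc] at hk
    exact ⟨k, hk.1, hk.2, rfl⟩
  · rintro ⟨k, h1, h2, rfl⟩
    exact ⟨k, Finset.mem_Icc.2 ⟨h1, h2⟩, rfl⟩

lemma seg_con {A : Finset W} {m : ℕ} {v : ℕ → W} {g : ℕ → E} (h : Ear a b A m v g) (i : ℕ) :
    ∀ j, i ≤ j → j ≤ m → Con a b (seg v i j) := by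
  intro j hij
  induction j, hij using Nat.le_induction with
  | base =>
    intro _
    have : seg v i i = {v i} := by simp [seg]
    rw [this]
    exact con_singleton _
  | succ j hij ih =>
    intro hj
    have h1 := ih (by omega)
    have h2 : seg v i (j + 1) = insert (v (j + 1)) (seg v i j) := by
      ext x
      rw [Finset.mem_insert, mem_seg, mem_seg]
      constructor
      · rintro ⟨k, h3, h4, rfl⟩
        rcases Nat.lt_or_ge j k with h5 | h5
        · left
          have : k = j + 1 := by omega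
          rw [this]
        · right; exact ⟨k, h3, h5, rfl⟩
      · rintro (rfl | ⟨k, h3, h4, rfl⟩)
        · exact ⟨j + 1, by omega, le_refl _, rfl⟩
        · exact ⟨k, h3, by omega, rfl⟩
    rw [h2]
    exact con_insert h1 (mem_seg.2 ⟨j, hij, le_refl _, rfl⟩) (h.jn j (by omega))

lemma card_seg_le (v : ℕ → W) (i j : ℕ) : (seg v i j).card ≤ j + 1 - i := by
  unfold seg
  refine Finset.card_image_le.trans ?_
  rw [Nat.card_Icc]

/-- in a connected set there is a path from an attached edge to every vertex -/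
lemma exists_path_to {K : Finset W} (hK : Con a b K) {e1 : E} {p u1 : W} (hu1 : u1 ∈ K)
    (hj1 : Jn a b e1 p u1) {w : W} (hw : w ∈ K) :
    ∃ (m : ℕ) (v : ℕ → W) (g : ℕ → E), 1 ≤ m ∧ v 0 = p ∧ g 0 = e1 ∧ v m = w ∧
      (∀ i < m, Jn a b (g i) (v i) (v (i + 1))) ∧ (∀ i, 1 ≤ i → i ≤ m → v i ∈ K) ∧
      (∀ i j, 1 ≤ i → i ≤ m → 1 ≤ j → j ≤ m → v i = v j → i = j) := by
  classical
  by_contra hcon
  let Q : W → Prop := fun w => ∃ (m : ℕ) (v : ℕ → W) (g : ℕ → E), 1 ≤ m ∧ v 0 = p ∧ g 0 = e1 ∧
      v m = w ∧ (∀ i < m, Jn a b (g i) (v i) (v (i + 1))) ∧ (∀ i, 1 ≤ i → i ≤ m → v i ∈ K) ∧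
      (∀ i j, 1 ≤ i → i ≤ m → 1 ≤ j → j ≤ m → v i = v j → i = j)
  have hQ1 : Q u1 := by
    refine ⟨1, fun i => if i = 0 then p else u1, fun _ => e1, le_refl _, rfl, rfl, rfl, ?_, ?_, ?_⟩
    · intro i hi
      have : i = 0 := by omega
      subst this
      exact hj1
    · intro i h1 h2
      have : i = 1 := by omega
      subst this
      exact hu1
    · intro i j h1 h2 h3 h4 _
      omega
  obtain ⟨e, u, x, hu, hx, hxS, hj⟩ := hK (K.filter Q) (Finset.filter_subset _ _)
    ⟨u1, Finset.mem_filter.2 ⟨hu1, hQ1⟩⟩ (by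
      intro h
      have h2 : w ∈ K.filter Q := by rw [h]; exact hw
      exact hcon (Finset.mem_filter.1 h2).2)
  rw [Finset.mem_filter] at hu hxS
  obtain ⟨m, v, g, h1, h2, h3, h4, h5, h6, h7⟩ := hu.2
  -- prefixes
  have hpre : ∀ i, 1 ≤ i → i ≤ m → Q (v i) := by
    intro i hi1 hi2
    exact ⟨i, v, g, hi1, h2, h3, rfl, fun k hk => h5 k (by omega), fun k hk1 hk2 => h6 k hk1
      (by omega), fun k l hk1 hk2 hl1 hl2 => h7 k l hk1 (by omega) hl1 (by omega)⟩
  have hxv : ∀ i, 1 ≤ i → i ≤ m → v i ≠ x := by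
    intro i hi1 hi2 hxi
    exact hxS ⟨hx, hxi ▸ hpre i hi1 hi2⟩
  apply hxS
  refine ⟨hx, m + 1, Function.update v (m + 1) x, Function.update g m e,
    by omega, ?_, ?_, ?_, ?_, ?_, ?_⟩
  · rw [Function.update_of_ne (by omega)]; exact h2
  · rw [Function.update_of_ne (by omega)]; exact h3
  · rw [Function.update_self]
  · intro i hi
    by_cases him : i = m
    · subst him
      rw [Function.update_self, Function.update_of_ne (by omega), Function.update_self, h4]
      exact hj
    · rw [Function.update_of_ne him, Function.update_of_ne (by omega),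
        Function.update_of_ne (by omega)]
      exact h5 i (by omega)
  · intro i hi1 hi2
    by_cases him : i = m + 1
    · rw [him, Function.update_self]; exact hx
    · rw [Function.update_of_ne him]; exact h6 i hi1 (by omega)
  · intro i j hi1 hi2 hj1' hj2 hij
    by_cases him : i = m + 1 <;> by_cases hjm : j = m + 1
    · omega
    · rw [him, Function.update_self, Function.update_of_ne hjm] at hij
      exact absurd hij.symm (hxv j hj1' (by omega))
    · rw [hjm, Function.update_self, Function.update_of_ne him] at hij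
      exact absurd hij (hxv i hi1 (by omega))
    · rw [Function.update_of_ne him, Function.update_of_ne hjm] at hij
      exact h7 i j hi1 (by omega) hj1' (by omega) hij

/-- a connected set with two attached edges contains an ear -/
lemma exists_ear {A K : Finset W} (hK : Con a b K) (hKA : ∀ x ∈ K, x ∉ A) {e1 e2 : E}
    {p q u1 u2 : W} (hp : p ∈ A) (hq : q ∈ A) (hu1 : u1 ∈ K) (hu2 : u2 ∈ K)
    (hj1 : Jn a b e1 p u1) (hj2 : Jn a b e2 q u2) (hne : e1 ≠ e2) :
    ∃ (m : ℕ) (v : ℕ → W) (g : ℕ → E), Ear a b A m v g ∧ (∀ i, 1 ≤ i → i ≤ m → v i ∈ K) ∧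
      m ≤ K.card := by
  classical
  obtain ⟨m, v, g, h1, h2, h3, h4, h5, h6, h7⟩ := exists_path_to hK hu1 hj1 hu2
  refine ⟨m, Function.update v (m + 1) q, Function.update g m e2, ?_, ?_, ?_⟩
  · refine ⟨h1, ?_, ?_, ?_, ?_, ?_, ?_⟩
    · intro i hi
      by_cases him : i = m
      · subst him
        rw [Function.update_self, Function.update_of_ne (by omega), Function.update_self, h4]
        exact hj2.symm
      · rw [Function.update_of_ne him, Function.update_of_ne (by omega),
          Function.update_of_ne (by omega)]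
        exact h5 i (by omega)
    · rw [Function.update_of_ne (by omega), h2]; exact hp
    · rw [Function.update_self]; exact hq
    · intro i hi1 hi2
      rw [Function.update_of_ne (by omega)]
      exact hKA _ (h6 i hi1 hi2)
    · intro i j hi1 hi2 hj1' hj2' hij
      rw [Function.update_of_ne (by omega), Function.update_of_ne (by omega)] at hij
      exact h7 i j hi1 hi2 hj1' hj2' hij
    · rw [Function.update_of_ne (by omega), Function.update_self, h3]; exact hne
  · intro i hi1 hi2
    rw [Function.update_of_ne (by omega)]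
    exact h6 i hi1 hi2
  · have h8 : (Finset.Icc 1 m).card ≤ K.card := by
      apply Finset.card_le_card_of_injOn v
      · intro i hi
        rw [Finset.mem_coe, Finset.mem_Icc] at hi
        exact h6 i hi.1 hi.2
      · intro i hi j hj hij
        rw [Finset.mem_coe, Finset.mem_Icc] at hi hj
        exact h7 i j hi.1 hi.2 hj.1 hj.2 hij
    rw [Nat.card_Icc] at h8
    omega

end Pool.Agent.N411.EC
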