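import Pool.Agent.N411.EC.Conn

set_option autoImplicit false
set_option linter.unusedSectionVars false

/-!
Nonseparating ears in 3-edge-connected cubic graphs.
-/

namespace Pool.Agent.N411.EC

open Finset
open Pool.Agent.Helper879.ECD (cn cn_compl cn_uncross1)

variable {W E : Type} [DecidableEq W] [Fintype W] [DecidableEq E] [Fintype E] {a b : E → W}

/-- the third edge at a vertex of degree three -/
lemma third_edge {v : W} (hd : cn a b univ {v} = 3) {e f : E} (he : Cr a b {v} e)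
    (hf : Cr a b {v} f) (hef : e ≠ f) :
    ∃ h, Cr a b {v} h ∧ h ≠ e ∧ h ≠ f ∧ ∀ g, Cr a b {v} g → g = e ∨ g = f ∨ g = h := by
  rw [cn_eq] at hd
  have h1 : ((univ.filter (fun e => Cr a b {v} e)) \ {e, f}).card = 1 := by
    rw [Finset.card_sdiff_of_subset, hd, Finset.card_pair hef]
    intro x hx
    rw [Finset.mem_insert, Finset.mem_singleton] at hx
    rw [Finset.mem_filter]
    rcases hx with rfl | rfl
    · exact ⟨Finset.mem_univ _, he⟩
    · exact ⟨Finset.mem_univ _, hf⟩
  obtain ⟨h, hh⟩ := Finset.card_eq_one.1 h1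
  have hmem : ∀ x, x ∈ (univ.filter (fun e => Cr a b {v} e)) \ {e, f} ↔ x = h := by
    intro x; rw [hh, Finset.mem_singleton]
  have h2 := (hmem h).2 rfl
  rw [Finset.mem_sdiff, Finset.mem_filter, Finset.mem_insert, Finset.mem_singleton] at h2
  refine ⟨h, h2.1.2, fun h3 => h2.2 (Or.inl h3), fun h3 => h2.2 (Or.inr h3), ?_⟩
  intro g hg
  by_cases h3 : g = e
  · exact Or.inl h3
  · by_cases h4 : g = f
    · exact Or.inr (Or.inl h4)
    · right; right
      rw [← hmem, Finset.mem_sdiff, Finset.mem_filter, Finset.mem_insert, Finset.mem_singleton]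
      exact ⟨⟨Finset.mem_univ _, hg⟩, by tauto⟩

lemma cr_single {e : E} {u w : W} (h : Jn a b e u w) (hne : u ≠ w) : Cr a b {u} e := by
  apply cr_of_jn h (Finset.mem_singleton_self u)
  rw [Finset.mem_singleton]; exact hne.symm

section EarBasic

variable {A : Finset W} {m : ℕ} {v : ℕ → W} {g : ℕ → E}

lemma Ear.ne_prev (h : Ear a b A m v g) {i : ℕ} (h1 : 1 ≤ i) (h2 : i ≤ m) :
    v (i - 1) ≠ v i := by
  intro h3
  rcases Nat.eq_or_lt_of_le h1 with h4 | h4
  · subst h4
    exact h.nmem 1 (le_refl _) h2 (h3 ▸ h.left)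
  · have := h.inj (i - 1) i (by omega) (by omega) h1 h2 h3
    omega

lemma Ear.ne_next (h : Ear a b A m v g) {i : ℕ} (h1 : 1 ≤ i) (h2 : i ≤ m) :
    v i ≠ v (i + 1) := by
  intro h3
  rcases Nat.eq_or_lt_of_le h2 with h4 | h4
  · subst h4
    exact h.nmem i h1 (le_refl _) (h3 ▸ h.right)
  · have := h.inj i (i + 1) h1 h2 (by omega) (by omega) h3
    omega

lemma Ear.prev_ne_next (h : Ear a b A m v g) {i : ℕ} (h1 : 1 ≤ i) (h2 : i ≤ m) (hm : 2 ≤ m) :
    v (i - 1) ≠ v (i + 1) := by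
  intro h3
  rcases Nat.eq_or_lt_of_le h1 with h4 | h4
  · subst h4
    exact h.nmem 2 (by omega) hm (h3 ▸ h.left)
  · rcases Nat.eq_or_lt_of_le h2 with h5 | h5
    · subst h5
      exact h.nmem (i - 1) (by omega) (by omega) (h3 ▸ h.right)
    · have := h.inj (i - 1) (i + 1) (by omega) (by omega) (by omega) (by omega) h3
      omega

lemma Ear.jn_prev (h : Ear a b A m v g) {i : ℕ} (h1 : 1 ≤ i) (h2 : i ≤ m) :
    Jn a b (g (i - 1)) (v (i - 1)) (v i) := by
  have := h.jn (i - 1) (by omega)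
  rwa [show i - 1 + 1 = i by omega] at this

lemma Ear.g_ne (h : Ear a b A m v g) {i : ℕ} (h1 : 1 ≤ i) (h2 : i ≤ m) : g (i - 1) ≠ g i := by
  intro h3
  have h4 := h.jn_prev h1 h2
  have h5 := h.jn i h2
  rw [h3] at h4
  have h6 := h4.symm.right_unique h5
  rcases Nat.eq_or_lt_of_le h.one_le with h7 | h7
  · have : i = 1 := by omega
    subst this
    apply h.ne
    rw [← h7]; exact h3
  · exact h.prev_ne_next h1 h2 h7 h6

lemma Ear.cr_prev (h : Ear a b A m v g) {i : ℕ} (h1 : 1 ≤ i) (h2 : i ≤ m) :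
    Cr a b {v i} (g (i - 1)) := cr_single (h.jn_prev h1 h2).symm (h.ne_prev h1 h2).symm

lemma Ear.cr_next (h : Ear a b A m v g) {i : ℕ} (h1 : 1 ≤ i) (h2 : i ≤ m) :
    Cr a b {v i} (g i) := cr_single (h.jn i h2) (h.ne_next h1 h2)

/-- there is no edge parallel to an edge of the ear -/
lemma Ear.no_par (h3 : TEC a b) (hd : ∀ v, cn a b univ {v} = 3) (h : Ear a b A m v g) {i : ℕ}
    (h1 : 1 ≤ i) (h2 : i + 1 ≤ m) {e : E} (he : Jn a b e (v i) (v (i + 1))) (hne : e ≠ g i) :
    False := by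
  have hii : v i ≠ v (i + 1) := h.ne_next h1 (by omega)
  have c1 : Cr a b {v i} e := cr_single he hii
  have c2 : Cr a b {v (i + 1)} e := cr_single he.symm hii.symm
  obtain ⟨k, -, -, -, hk⟩ := third_edge (hd (v i)) c1 (h.cr_next h1 (by omega)) hne
  have c3 := h.cr_prev h1 (show i ≤ m by omega)
  have hk1 : k = g (i - 1) := by
    rcases hk _ c3 with h4 | h4 | h4
    · exfalso
      have h5 := h.jn_prev h1 (show i ≤ m by omega)
      rw [h4] at h5
      exact h.prev_ne_next h1 (by omega) (by omega) (h5.symm.right_unique he)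
    · exact absurd h4 (h.g_ne h1 (by omega))
    · exact h4.symm
  have c4 := h.cr_prev (show 1 ≤ i + 1 by omega) h2
  rw [show i + 1 - 1 = i by omega] at c4
  obtain ⟨l, -, -, -, hl⟩ := third_edge (hd (v (i + 1))) c2 c4 hne
  have c5 := h.cr_next (show 1 ≤ i + 1 by omega) h2
  have hl1 : l = g (i + 1) := by
    rcases hl _ c5 with h4 | h4 | h4
    · exfalso
      have h5 := h.jn (i + 1) h2
      rw [h4] at h5
      have h6 := h.prev_ne_next (show 1 ≤ i + 1 by omega) h2 (by omega)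
      rw [show i + 1 - 1 = i by omega] at h6
      exact h6 (he.symm.right_unique h5)
    · exfalso
      have h6 := h.g_ne (show 1 ≤ i + 1 by omega) h2
      rw [show i + 1 - 1 = i by omega] at h6
      exact h6 h4.symm
    · exact h4.symm
  refine h3.no_two (X := {v i, v (i + 1)}) ⟨v i, by simp⟩ ?_ (g (i - 1)) (g (i + 1)) ?_
  · intro h4
    have h5 : v 0 ∈ ({v i, v (i + 1)} : Finset W) := by rw [h4]; exact Finset.mem_univ _
    rw [Finset.mem_insert, Finset.mem_singleton] at h5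
    rcases h5 with h5 | h5
    · exact h.nmem i h1 (by omega) (h5 ▸ h.left)
    · exact h.nmem (i + 1) (by omega) (by omega) (h5 ▸ h.left)
  · intro x hx
    obtain ⟨p, q, hp, hq, hj⟩ := exists_jn_of_cr hx
    rw [Finset.mem_insert, Finset.mem_singleton] at hp hq
    push Not at hq
    rcases hp with rfl | rfl
    · rcases hk x (cr_single hj (Ne.symm hq.1)) with h4 | h4 | h4
      · subst h4
        exact absurd (hj.right_unique he) hq.2
      · subst h4
        exact absurd (hj.right_unique (h.jn i (by omega))) hq.2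
      · left; rw [h4, hk1]
    · rcases hl x (cr_single hj (Ne.symm hq.2)) with h4 | h4 | h4
      · subst h4
        exact absurd (hj.right_unique he.symm) hq.1
      · subst h4
        exact absurd (hj.right_unique (h.jn i (by omega)).symm) hq.1
      · right; rw [h4, hl1]

end EarBasic

/-- there is an ear avoiding `z` -/
lemma exists_first_ear (h3 : TEC a b) (hd : ∀ v, cn a b univ {v} = 3) {A : Finset W} {z r w0 : W}
    {ρ : E} (hzA : z ∉ A) (hr : r ∈ A) (hρ : Jn a b ρ r z) (hw0 : w0 ∉ A) (hwz : w0 ≠ z) :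
    ∃ (m : ℕ) (v : ℕ → W) (g : ℕ → E), Ear a b A m v g ∧ ∀ i, 1 ≤ i → i ≤ m → v i ≠ z := by
  classical
  obtain ⟨K, hKM, hwK, hK, hcl⟩ := exists_comp (a := a) (b := b) (M := Aᶜ.erase z) (y := w0) (by
    rw [Finset.mem_erase, Finset.mem_compl]; exact ⟨hwz, hw0⟩)
  have hKA : ∀ x ∈ K, x ∉ A := by
    intro x hx
    have := hKM hx
    rw [Finset.mem_erase, Finset.mem_compl] at this
    exact this.2
  have hKz : z ∉ K := by
    intro hx
    have := hKM hx
    rw [Finset.mem_erase] at this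
    exact this.1 rfl
  have hout : ∀ e u w, u ∈ K → w ∉ K → Jn a b e u w → w ∈ A ∨ w = z := by
    intro e u w hu hw hj
    by_contra hcon
    push Not at hcon
    exact hw (hcl e u w hu (by
      rw [Finset.mem_erase, Finset.mem_compl]; exact ⟨hcon.2, hcon.1⟩) hj)
  by_cases htwo : ∃ e1 e2 p q u1 u2, p ∈ A ∧ q ∈ A ∧ u1 ∈ K ∧ u2 ∈ K ∧ Jn a b e1 p u1 ∧
      Jn a b e2 q u2 ∧ e1 ≠ e2
  · obtain ⟨e1, e2, p, q, u1, u2, hp, hq, hu1, hu2, hj1, hj2, hne⟩ := htwo
    obtain ⟨m, v, g, h1, h2, -⟩ := exists_ear hK hKA hp hq hu1 hu2 hj1 hj2 hne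
    exact ⟨m, v, g, h1, fun i hi1 hi2 h4 => hKz (h4 ▸ h2 i hi1 hi2)⟩
  · exfalso
    -- at most one edge from `K` to `A`
    have hone : ∃ h : E, ∀ e p u, p ∈ A → u ∈ K → Jn a b e p u → e = h := by
      by_cases hex : ∃ e p u, p ∈ A ∧ u ∈ K ∧ Jn a b e p u
      · obtain ⟨h, p, u, hp, hu, hj⟩ := hex
        refine ⟨h, ?_⟩
        intro e p' u' hp' hu' hj'
        by_contra hne
        exact htwo ⟨e, h, p', p, u', u, hp', hp, hu', hu, hj', hj, hne⟩
      · refine ⟨ρ, ?_⟩
        intro e p u hp hu hj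
        exact absurd ⟨e, p, u, hp, hu, hj⟩ hex
    obtain ⟨h, hh⟩ := hone
    have hK3 := h3 K ⟨w0, hwK⟩ (fun h4 => hKz (h4 ▸ Finset.mem_univ z))
    rw [cn_eq] at hK3
    have hcard : 2 ≤ ((univ.filter (fun e => Cr a b K e)).erase h).card := by
      have := Finset.pred_card_le_card_erase (s := univ.filter (fun e => Cr a b K e)) (a := h)
      omega
    obtain ⟨s1, hs1, s2, hs2, hs12⟩ := Finset.one_lt_card.1 hcard
    have hs : ∀ s, s ∈ (univ.filter (fun e => Cr a b K e)).erase h →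
        ∃ u, u ∈ K ∧ Jn a b s z u := by
      intro s hs
      rw [Finset.mem_erase, Finset.mem_filter] at hs
      obtain ⟨u, w, hu, hw, hj⟩ := exists_jn_of_cr hs.2.2
      rcases hout s u w hu hw hj with h4 | h4
      · exact absurd (hh s w u h4 hu hj.symm) hs.1
      · exact ⟨u, hu, h4 ▸ hj.symm⟩
    obtain ⟨u1, hu1, hj1⟩ := hs s1 hs1
    obtain ⟨u2, hu2, hj2⟩ := hs s2 hs2
    have hzu : ∀ u, u ∈ K → z ≠ u := fun u hu h4 => hKz (h4 ▸ hu)
    obtain ⟨k, -, -, -, hk⟩ := third_edge (hd z) (cr_single hj1 (hzu u1 hu1))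
      (cr_single hj2 (hzu u2 hu2)) hs12
    have hρne : ∀ s u, u ∈ K → Jn a b s z u → ρ ≠ s := by
      intro s u hu hj h4
      subst h4
      have := hρ.symm.right_unique hj
      exact hKA u hu (this ▸ hr)
    have hkρ : k = ρ := by
      rcases hk ρ (cr_single hρ.symm (fun h4 => hzA (h4 ▸ hr))) with h4 | h4 | h4
      · exact absurd h4 (hρne s1 u1 hu1 hj1)
      · exact absurd h4 (hρne s2 u2 hu2 hj2)
      · exact h4.symm
    refine h3.no_two (X := insert z K) ⟨z, Finset.mem_insert_self _ _⟩ ?_ h ρ ?_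
    · intro h4
      have h5 : r ∈ insert z K := by rw [h4]; exact Finset.mem_univ _
      rw [Finset.mem_insert] at h5
      rcases h5 with h5 | h5
      · exact hzA (h5 ▸ hr)
      · exact hKA r h5 hr
    · intro x hx
      obtain ⟨p, q, hp, hq, hj⟩ := exists_jn_of_cr hx
      rw [Finset.mem_insert] at hp hq
      push Not at hq
      rcases hp with rfl | hp
      · rcases hk x (cr_single hj (Ne.symm hq.1)) with h4 | h4 | h4
        · subst h4
          exact absurd (hj.right_unique hj1 ▸ hu1) hq.2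
        · subst h4
          exact absurd (hj.right_unique hj2 ▸ hu2) hq.2
        · right; rw [h4, hkρ]
      · rcases hout x p q hp hq.2 hj with h4 | h4
        · left; exact hh x q p h4 hp hj.symm
        · exact absurd h4 hq.1

end Pool.Agent.N411.EC
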