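import Pool.Agent.N411.EC.EarL

set_option autoImplicit false
set_option linter.unusedSectionVars false

/-!
Nonseparating ears in 3-edge-connected cubic graphs: main existence lemma.
-/

namespace Pool.Agent.N411.EC

open Finset
open Pool.Agent.Helper879.ECD (cn cn_compl cn_uncross1)

variable {W E : Type} [DecidableEq W] [Fintype W] [DecidableEq E] [Fintype E] {a b : E → W}

/-- main lemma: a nonseparating ear avoiding `z` -/
theorem exists_good_ear (h3 : TEC a b) (hd : ∀ v, cn a b univ {v} = 3) {A : Finset W} {z r w0 : W}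
    {ρ : E} (hzA : z ∉ A) (hr : r ∈ A) (hρ : Jn a b ρ r z) (hw0 : w0 ∉ A) (hwz : w0 ≠ z)
    (hcon : Con a b Aᶜ) :
    ∃ (m : ℕ) (v : ℕ → W) (g : ℕ → E), Ear a b A m v g ∧ (∀ i, 1 ≤ i → i ≤ m → v i ≠ z) ∧
      Con a b (A ∪ seg v 1 m)ᶜ ∧
      ∀ i, 1 ≤ i → i ≤ m → ∃ h y, Jn a b h (v i) y ∧ y ∉ A ∪ seg v 1 m ∧
        ∀ e, Cr a b {v i} e → e = g (i - 1) ∨ e = g i ∨ e = h := by
  classical
  -- feasible sets
  let F : Finset W → Prop := fun C => z ∈ C ∧ Con a b C ∧ (∀ x ∈ C, x ∉ A) ∧
    ∃ (m : ℕ) (v : ℕ → W) (g : ℕ → E), Ear a b A m v g ∧ ∀ i, 1 ≤ i → i ≤ m → v i ∉ C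
  obtain ⟨C, hC, hCmax⟩ := Finset.exists_max_image (univ.filter F) Finset.card (by
    obtain ⟨m, v, g, h1, h2⟩ := exists_first_ear h3 hd hzA hr hρ hw0 hwz
    refine ⟨{z}, ?_⟩
    rw [Finset.mem_filter]
    refine ⟨Finset.mem_univ _, Finset.mem_singleton_self z, con_singleton z, ?_, m, v, g, h1, ?_⟩
    · intro x hx
      rw [Finset.mem_singleton] at hx
      rw [hx]; exact hzA
    · intro i hi1 hi2
      rw [Finset.mem_singleton]
      exact h2 i hi1 hi2)
  rw [Finset.mem_filter] at hC
  obtain ⟨-, hzC, hCc, hCA, hCear⟩ := hC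
  -- an ear avoiding `C` of minimum length
  let Q : ℕ → Prop := fun m => ∃ (v : ℕ → W) (g : ℕ → E), Ear a b A m v g ∧
    ∀ i, 1 ≤ i → i ≤ m → v i ∉ C
  have hQ : ∃ m, Q m := by
    obtain ⟨m, v, g, h⟩ := hCear
    exact ⟨m, v, g, h⟩
  obtain ⟨v, g, hE, hEC⟩ := Nat.find_spec hQ
  have hmin0 : ∀ m', Q m' → Nat.find hQ ≤ m' := fun m' h => Nat.find_min' hQ h
  generalize Nat.find hQ = m at hE hEC hmin0
  -- maximality of `C`
  have hKP : ∀ (c : W) (e : E) (u : W), c ∉ C → c ∉ A → u ∈ C → Jn a b e u c →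
      ∀ (m' : ℕ) (v' : ℕ → W) (g' : ℕ → E), Ear a b A m' v' g' →
      (∀ i, 1 ≤ i → i ≤ m' → v' i ∉ C) → ∃ i, 1 ≤ i ∧ i ≤ m' ∧ v' i = c := by
    intro c e u hcC hcA hu hj m' v' g' hE' hEC'
    by_contra hcon2
    push Not at hcon2
    have h1 := hCmax (insert c C) (by
      rw [Finset.mem_filter]
      refine ⟨Finset.mem_univ _, Finset.mem_insert_of_mem hzC, con_insert hCc hu hj, ?_,
        m', v', g', hE', ?_⟩
      · intro x hx
        rw [Finset.mem_insert] at hx
        rcases hx with rfl | hx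
        · exact hcA
        · exact hCA x hx
      · intro i hi1 hi2
        rw [Finset.mem_insert]
        push Not
        exact ⟨hcon2 i hi1 hi2, hEC' i hi1 hi2⟩)
    rw [Finset.card_insert_of_notMem hcC] at h1
    omega
  have hKP' : ∀ (c : W) (e : E) (u : W), c ∉ C → c ∉ A → u ∈ C → Jn a b e u c →
      ∀ (K : Finset W) (e1 e2 : E) (p q u1 u2 : W), Con a b K → (∀ x ∈ K, x ∉ A) →
      (∀ x ∈ K, x ∉ C) → c ∉ K → p ∈ A → q ∈ A → u1 ∈ K → u2 ∈ K → Jn a b e1 p u1 →
      Jn a b e2 q u2 → e1 ≠ e2 → False := by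
    intro c e u hcC hcA hu hj K e1 e2 p q u1 u2 hK hKA hKC hcK hp hq hu1 hu2 hj1 hj2 hne
    obtain ⟨m', v', g', h1, h2, -⟩ := exists_ear hK hKA hp hq hu1 hu2 hj1 hj2 hne
    obtain ⟨i, hi1, hi2, hi3⟩ := hKP c e u hcC hcA hu hj m' v' g' h1
      (fun i hi1 hi2 => hKC _ (h2 i hi1 hi2))
    exact hcK (hi3 ▸ h2 i hi1 hi2)
  have hmin : ∀ (K : Finset W) (e1 e2 : E) (p q u1 u2 : W), Con a b K → (∀ x ∈ K, x ∉ A) →
      (∀ x ∈ K, x ∉ C) → p ∈ A → q ∈ A → u1 ∈ K → u2 ∈ K → Jn a b e1 p u1 →
      Jn a b e2 q u2 → e1 ≠ e2 → m ≤ K.card := by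
    intro K e1 e2 p q u1 u2 hK hKA hKC hp hq hu1 hu2 hj1 hj2 hne
    obtain ⟨m', v', g', h1, h2, h4⟩ := exists_ear hK hKA hp hq hu1 hu2 hj1 hj2 hne
    exact (hmin0 m' ⟨v', g', h1, fun i hi1 hi2 => hKC _ (h2 i hi1 hi2)⟩).trans h4
  -- segments
  have hsegA : ∀ i j, 1 ≤ i → j ≤ m → ∀ x ∈ seg v i j, x ∉ A := by
    intro i j hi hj x hx
    obtain ⟨k, hk1, hk2, rfl⟩ := mem_seg.1 hx
    exact hE.nmem k (by omega) (by omega)
  have hsegC : ∀ i j, 1 ≤ i → j ≤ m → ∀ x ∈ seg v i j, x ∉ C := by
    intro i j hi hj x hx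
    obtain ⟨k, hk1, hk2, rfl⟩ := mem_seg.1 hx
    exact hEC k (by omega) (by omega)
  have hsegm : ∀ i j k, i ≤ k → k ≤ j → v k ∈ seg v i j := fun i j k h1 h2 =>
    mem_seg.2 ⟨k, h1, h2, rfl⟩
  have hone := hE.one_le
  have hz : ∀ i, 1 ≤ i → i ≤ m → v i ≠ z := fun i hi1 hi2 h => hEC i hi1 hi2 (h ▸ hzC)
  -- third edges
  have hthird : ∀ i, 1 ≤ i → i ≤ m → ∃ h y, Jn a b h (v i) y ∧ y ∉ A ∪ seg v 1 m ∧
        ∀ e, Cr a b {v i} e → e = g (i - 1) ∨ e = g i ∨ e = h := by
    intro i hi1 hi2
    obtain ⟨h, hh1, hh2, hh4, hh5⟩ := third_edge (hd (v i)) (hE.cr_prev hi1 hi2)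
      (hE.cr_next hi1 hi2) (hE.g_ne hi1 hi2)
    obtain ⟨x, y, hx, hy, hj⟩ := exists_jn_of_cr hh1
    rw [Finset.mem_singleton] at hx hy
    subst hx
    refine ⟨h, y, hj, ?_, hh5⟩
    -- the ends
    have hg0 : h ≠ g 0 := by
      intro h4
      rcases Nat.eq_or_lt_of_le hi1 with h5 | h5
      · subst h5
        exact hh2 h4
      · have h6 := hE.jn 0 (by omega)
        rw [← h4] at h6
        rcases hj.pair h6 with ⟨h7, -⟩ | ⟨h7, -⟩
        · exact hE.nmem i hi1 hi2 (h7 ▸ hE.left)
        · have := hE.inj i 1 hi1 hi2 (le_refl _) (by omega) h7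
          omega
    have hgm : h ≠ g m := by
      intro h4
      rcases Nat.eq_or_lt_of_le hi2 with h5 | h5
      · subst h5
        exact hh4 h4
      · have h6 := hE.jn m (le_refl _)
        rw [← h4] at h6
        rcases hj.pair h6 with ⟨h7, -⟩ | ⟨h7, -⟩
        · have := hE.inj i m hi1 hi2 hone (le_refl _) h7
          omega
        · exact hE.nmem i hi1 hi2 (h7 ▸ hE.right)
    have hyA : y ∉ A := by
      intro hyA
      have h4 := hmin (seg v 1 i) (g 0) h (v 0) y (v 1) (v i) (seg_con hE 1 i hi1 hi2)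
        (hsegA 1 i (le_refl _) hi2) (hsegC 1 i (le_refl _) hi2) hE.left hyA
        (hsegm 1 i 1 (le_refl _) hi1) (hsegm 1 i i hi1 (le_refl _)) (hE.jn 0 (by omega)) hj.symm
        hg0.symm
      have h5 := card_seg_le v 1 i
      have h6 := hmin (seg v i m) (g m) h (v (m + 1)) y (v m) (v i) (seg_con hE i m hi2 (le_refl _))
        (hsegA i m hi1 (le_refl _)) (hsegC i m hi1 (le_refl _)) hE.right hyA
        (hsegm i m m hi2 (le_refl _)) (hsegm i m i (le_refl _) hi2) (hE.jn m (le_refl _)).symm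
        hj.symm hgm.symm
      have h7 := card_seg_le v i m
      have hi : i = 1 := by omega
      have hm : m = 1 := by omega
      subst hi
      obtain ⟨e, u, w, hu, hw, hwX, hj2⟩ := hcon {v 1} (by
        intro x hx
        rw [Finset.mem_singleton] at hx
        rw [hx, Finset.mem_compl]; exact hE.nmem 1 (le_refl _) hi2) ⟨v 1, by simp⟩ (by
        intro h8
        have h9 : z ∈ ({v 1} : Finset W) := by
          rw [h8, Finset.mem_compl]; exact hzA
        rw [Finset.mem_singleton] at h9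
        exact hz 1 (le_refl _) hi2 h9.symm)
      rw [Finset.mem_singleton] at hu hwX
      rw [Finset.mem_compl] at hw
      subst hu
      rcases hh5 e (cr_single hj2 (Ne.symm hwX)) with h8 | h8 | h8
      · rw [h8] at hj2
        have h9 := hj2.right_unique (hE.jn 0 (by omega)).symm
        exact hw (h9 ▸ hE.left)
      · rw [h8] at hj2
        have h9 := hj2.right_unique (hE.jn 1 (by omega))
        rw [← hm] at h9
        have h10 := hE.right
        rw [h9] at hw
        apply hw
        rw [hm] at h10 ⊢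
        exact h10
      · rw [h8] at hj2
        have h9 := hj2.right_unique hj
        exact hw (h9 ▸ hyA)
    rw [Finset.mem_union]
    push Not
    refine ⟨hyA, ?_⟩
    intro hyP
    obtain ⟨j, hj1, hj2, rfl⟩ := mem_seg.1 hyP
    have hij : i ≠ j := fun h4 => hy (by rw [h4])
    rcases Nat.lt_or_ge i j with h4 | h4
    · have h5 := hmin (seg v 1 i ∪ seg v j m) (g 0) (g m) (v 0) (v (m + 1)) (v 1) (v m)
        (con_union (seg_con hE 1 i hi1 hi2) (seg_con hE j m hj2 (le_refl _))
          (hsegm 1 i i hi1 (le_refl _)) (hsegm j m j (le_refl _) hj2) hj)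
        (by
          intro x hx
          rw [Finset.mem_union] at hx
          rcases hx with hx | hx
          · exact hsegA 1 i (le_refl _) hi2 x hx
          · exact hsegA j m hj1 (le_refl _) x hx)
        (by
          intro x hx
          rw [Finset.mem_union] at hx
          rcases hx with hx | hx
          · exact hsegC 1 i (le_refl _) hi2 x hx
          · exact hsegC j m hj1 (le_refl _) x hx) hE.left hE.right
        (Finset.mem_union_left _ (hsegm 1 i 1 (le_refl _) hi1))
        (Finset.mem_union_right _ (hsegm j m m hj2 (le_refl _))) (hE.jn 0 (by omega))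
        (hE.jn m (le_refl _)).symm hE.ne
      have h6 := Finset.card_union_le (seg v 1 i) (seg v j m)
      have h7 := card_seg_le v 1 i
      have h8 := card_seg_le v j m
      have h9 : j = i + 1 := by omega
      subst h9
      exact hE.no_par h3 hd hi1 hj2 hj hh4
    · have h5 := hmin (seg v 1 j ∪ seg v i m) (g 0) (g m) (v 0) (v (m + 1)) (v 1) (v m)
        (con_union (seg_con hE 1 j hj1 hj2) (seg_con hE i m hi2 (le_refl _))
          (hsegm 1 j j hj1 (le_refl _)) (hsegm i m i (le_refl _) hi2) hj.symm)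
        (by
          intro x hx
          rw [Finset.mem_union] at hx
          rcases hx with hx | hx
          · exact hsegA 1 j (le_refl _) hj2 x hx
          · exact hsegA i m hi1 (le_refl _) x hx)
        (by
          intro x hx
          rw [Finset.mem_union] at hx
          rcases hx with hx | hx
          · exact hsegC 1 j (le_refl _) hj2 x hx
          · exact hsegC i m hi1 (le_refl _) x hx) hE.left hE.right
        (Finset.mem_union_left _ (hsegm 1 j 1 (le_refl _) hj1))
        (Finset.mem_union_right _ (hsegm i m m hi2 (le_refl _))) (hE.jn 0 (by omega))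
        (hE.jn m (le_refl _)).symm hE.ne
      have h6 := Finset.card_union_le (seg v 1 j) (seg v i m)
      have h7 := card_seg_le v 1 j
      have h8 := card_seg_le v i m
      have h9 : i = j + 1 := by omega
      subst h9
      refine hE.no_par h3 hd hj1 hi2 hj.symm ?_
      rw [show j + 1 - 1 = j by omega] at hh2
      exact hh2
  -- neighbours of `C`
  have hCP : ∀ e u w, u ∈ C → w ∉ C → w ∉ A → Jn a b e u w → ∃ i, 1 ≤ i ∧ i ≤ m ∧ v i = w :=
    fun e u w hu hwC hwA hj => hKP w e u hwC hwA hu hj m v g hE hEC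
  let Ad : ℕ → Prop := fun c => 1 ≤ c ∧ c ≤ m ∧ ∃ e u, u ∈ C ∧ Jn a b e u (v c)
  have hAd : ∃ c, Ad c := by
    obtain ⟨e, u, w, hu, hw, hwC, hj⟩ := hcon C (by
      intro x hx
      rw [Finset.mem_compl]; exact hCA x hx) ⟨z, hzC⟩ (by
      intro h4
      have h5 : v 1 ∈ C := by
        rw [h4, Finset.mem_compl]; exact hE.nmem 1 (le_refl _) hone
      exact hEC 1 (le_refl _) hone h5)
    rw [Finset.mem_compl] at hw
    obtain ⟨c, hc1, hc2, hc3⟩ := hCP e u w hu hwC hw hj
    exact ⟨c, hc1, hc2, e, u, hu, hc3 ▸ hj⟩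
  have hfin : ∀ y, y ∉ A → (∀ i, 1 ≤ i → i ≤ m → v i ≠ y) → y ∈ C := by
    intro y0 hyA hyP
    by_contra hyC
    -- the component
    let Mp : W → Prop := fun w => w ∉ A ∧ w ∉ C ∧ ¬ ∃ c, Ad c ∧ v c = w
    obtain ⟨X, hXM, hyX, hX, hcl⟩ := exists_comp (a := a) (b := b) (M := univ.filter Mp) (y := y0) (by
      rw [Finset.mem_filter]
      refine ⟨Finset.mem_univ _, hyA, hyC, ?_⟩
      rintro ⟨c, hc, hc2⟩
      exact hyP c hc.1 hc.2.1 hc2)
    have hXm : ∀ x ∈ X, x ∉ A ∧ x ∉ C ∧ ¬ ∃ c, Ad c ∧ v c = x := by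
      intro x hx
      exact (Finset.mem_filter.1 (hXM hx)).2
    have hXnoC : ∀ e u w, u ∈ X → w ∈ C → Jn a b e u w → False := by
      intro e u w hu hw hj
      obtain ⟨h4, h5, h6⟩ := hXm u hu
      obtain ⟨c, hc1, hc2, hc3⟩ := hCP e w u hw h5 h4 hj.symm
      exact h6 ⟨c, ⟨hc1, hc2, e, w, hw, hc3 ▸ hj.symm⟩, hc3⟩
    -- edges leaving `X`
    have hout : ∀ e u w, u ∈ X → w ∉ X → Jn a b e u w → w ∈ A ∨ ∃ c, Ad c ∧ v c = w := by
      intro e u w hu hw hj
      by_contra h4
      push Not at h4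
      apply hw
      refine hcl e u w hu ?_ hj
      rw [Finset.mem_filter]
      refine ⟨Finset.mem_univ _, h4.1, fun h5 => hXnoC e u w hu h5 hj, ?_⟩
      rintro ⟨c, hc1, hc2⟩
      exact h4.2 c hc1 hc2
    have hvcX : ∀ c, Ad c → v c ∉ X := fun c hc h4 => (hXm _ h4).2.2 ⟨c, hc, rfl⟩
    have hAd1 : ∀ c, Ad c → ∃ e u, v c ∉ C ∧ v c ∉ A ∧ u ∈ C ∧ Jn a b e u (v c) := by
      rintro c ⟨h4, h5, e, u, h6, h7⟩
      exact ⟨e, u, hEC c h4 h5, hE.nmem c h4 h5, h6, h7⟩
    -- two sides of an adjacent vertex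
    have hA2 : ∀ i c j, 1 ≤ i → i < c → c < j → j ≤ m → Ad c → v i ∈ X → v j ∈ X → False := by
      intro i c j hi hic hcj hj hc hiX hjX
      obtain ⟨e, u, hc1, hc2, hc3, hc4⟩ := hAd1 c hc
      refine hKP' (v c) e u hc1 hc2 hc3 hc4 ((X ∪ seg v 1 (c - 1)) ∪ seg v (c + 1) m) (g 0) (g m)
        (v 0) (v (m + 1)) (v 1) (v m) ?_ ?_ ?_ ?_ hE.left hE.right ?_ ?_ (hE.jn 0 (by omega))
        (hE.jn m (le_refl _)).symm hE.ne
      · exact con_union' (con_union' hX (seg_con hE 1 (c - 1) (by omega) (by omega)) hiX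
          (hsegm 1 (c - 1) i hi (by omega))) (seg_con hE (c + 1) m (by omega) (le_refl _))
          (Finset.mem_union_left _ hjX) (hsegm (c + 1) m j (by omega) hj)
      · intro x hx
        rw [Finset.mem_union, Finset.mem_union] at hx
        rcases hx with (hx | hx) | hx
        · exact (hXm x hx).1
        · exact hsegA 1 (c - 1) (le_refl _) (by omega) x hx
        · exact hsegA (c + 1) m (by omega) (le_refl _) x hx
      · intro x hx
        rw [Finset.mem_union, Finset.mem_union] at hx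
        rcases hx with (hx | hx) | hx
        · exact (hXm x hx).2.1
        · exact hsegC 1 (c - 1) (le_refl _) (by omega) x hx
        · exact hsegC (c + 1) m (by omega) (le_refl _) x hx
      · intro hx
        rw [Finset.mem_union, Finset.mem_union] at hx
        rcases hx with (hx | hx) | hx
        · exact hvcX c hc hx
        · obtain ⟨k, hk1, hk2, hk3⟩ := mem_seg.1 hx
          have := hE.inj k c hk1 (by omega) (by omega) (by omega) hk3
          omega
        · obtain ⟨k, hk1, hk2, hk3⟩ := mem_seg.1 hx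
          have := hE.inj k c (by omega) hk2 (by omega) (by omega) hk3
          omega
      · exact Finset.mem_union_left _ (Finset.mem_union_right _
          (hsegm 1 (c - 1) 1 (le_refl _) (by omega)))
      · exact Finset.mem_union_right _ (hsegm (c + 1) m m (by omega) (le_refl _))
    -- at most one edge to `A`
    obtain ⟨c0, hc0⟩ := hAd
    have hA1 : ∀ e1 e2 p q u1 u2, p ∈ A → q ∈ A → u1 ∈ X → u2 ∈ X → Jn a b e1 p u1 →
        Jn a b e2 q u2 → e1 = e2 := by
      intro e1 e2 p q u1 u2 hp hq hu1 hu2 hj1 hj2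
      by_contra hne
      obtain ⟨e, u, hc1, hc2, hc3, hc4⟩ := hAd1 c0 hc0
      exact hKP' (v c0) e u hc1 hc2 hc3 hc4 X e1 e2 p q u1 u2 hX (fun x hx => (hXm x hx).1)
        (fun x hx => (hXm x hx).2.1) (hvcX c0 hc0) hp hq hu1 hu2 hj1 hj2 hne
    let LB : ℕ → Prop := fun c => Ad c ∧ c + 1 ≤ m ∧ v (c + 1) ∈ X
    let RB : ℕ → Prop := fun c => Ad c ∧ 2 ≤ c ∧ v (c - 1) ∈ X
    have hLu : ∀ c c', LB c → LB c' → c < c' → False := by
      rintro c c' ⟨h4, h5, h6⟩ ⟨h7, h8, h9⟩ hlt
      rcases Nat.eq_or_lt_of_le (show c + 1 ≤ c' by omega) with h10 | h10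
      · rw [h10] at h6
        exact hvcX c' h7 h6
      · exact hA2 (c + 1) c' (c' + 1) (by omega) h10 (by omega) h8 h7 h6 h9
    have hRu : ∀ c c', RB c → RB c' → c < c' → False := by
      rintro c c' ⟨h4, h5, h6⟩ ⟨h7, h8, h9⟩ hlt
      rcases Nat.eq_or_lt_of_le (show c + 1 ≤ c' by omega) with h10 | h10
      · rw [← h10, show c + 1 - 1 = c by omega] at h9
        exact hvcX c h4 h9
      · exact hA2 (c - 1) c (c' - 1) (by omega) (by omega) (by omega) (by
          have := h7.2.1
          omega) h4 h6 h9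
    have hA5 : ∀ e p u c c', p ∈ A → u ∈ X → Jn a b e p u → LB c → RB c' → False := by
      rintro e p u c c' hp hu hj ⟨h4, h5, h6⟩ ⟨h7, h8, h9⟩
      by_cases he : e = g m
      · have h10 := hE.jn m (le_refl _)
        rw [← he] at h10
        have hum : v m ∈ X := by
          rcases hj.pair h10 with ⟨h11, -⟩ | ⟨-, h11⟩
          · exact absurd (h11 ▸ hp) (hE.nmem m hone (le_refl _))
          · exact h11 ▸ hu
        have h7' := h7.2.1
        have h12 : c' ≠ m := by
          intro h13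
          rw [h13] at h7
          exact hvcX m h7 hum
        exact hA2 (c' - 1) c' m (by omega) (by omega) (by omega) (le_refl _) h7 h9 hum
      · obtain ⟨e', u', hc1, hc2, hc3, hc4⟩ := hAd1 c h4
        refine hKP' (v c) e' u' hc1 hc2 hc3 hc4 (X ∪ seg v (c + 1) m) e (g m)
          p (v (m + 1)) u (v m) ?_ ?_ ?_ ?_ hp hE.right ?_ ?_ hj
          (hE.jn m (le_refl _)).symm he
        · exact con_union' hX (seg_con hE (c + 1) m (by omega) (le_refl _)) h6
            (hsegm (c + 1) m (c + 1) (le_refl _) h5)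
        · intro x hx
          rw [Finset.mem_union] at hx
          rcases hx with hx | hx
          · exact (hXm x hx).1
          · exact hsegA (c + 1) m (by omega) (le_refl _) x hx
        · intro x hx
          rw [Finset.mem_union] at hx
          rcases hx with hx | hx
          · exact (hXm x hx).2.1
          · exact hsegC (c + 1) m (by omega) (le_refl _) x hx
        · intro hx
          rw [Finset.mem_union] at hx
          rcases hx with hx | hx
          · exact hvcX c h4 hx
          · obtain ⟨k, hk1, hk2, hk3⟩ := mem_seg.1 hx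
            have := hE.inj k c (by omega) hk2 h4.1 h4.2.1 hk3
            omega
        · exact Finset.mem_union_left _ hu
        · exact Finset.mem_union_right _ (hsegm (c + 1) m m h5 (le_refl _))
    -- classification of the edges leaving `X`
    have hcls : ∀ x, Cr a b X x → (∃ p u, p ∈ A ∧ u ∈ X ∧ Jn a b x p u) ∨
        (∃ c, LB c ∧ x = g c) ∨ (∃ c, RB c ∧ x = g (c - 1)) := by
      intro x hx
      obtain ⟨u, w, hu, hw, hj⟩ := exists_jn_of_cr hx
      rcases hout x u w hu hw hj with h4 | ⟨c, hc, rfl⟩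
      · left; exact ⟨w, u, h4, hu, hj.symm⟩
      · right
        obtain ⟨hc1, hc2, e, y, hy, hjy⟩ := hc
        have hcc : Ad c := ⟨hc1, hc2, e, y, hy, hjy⟩
        obtain ⟨h, y', hj', hy', hall⟩ := hthird c hc1 hc2
        rw [Finset.mem_union] at hy'
        push Not at hy'
        -- the edge to `C` is the third edge
        have hyc : v c ≠ y := fun h5 => hEC c hc1 hc2 (h5 ▸ hy)
        have heh : e = h := by
          rcases hall e (cr_single hjy.symm hyc) with h5 | h5 | h5
          · exfalso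
            subst h5
            have h6 := hjy.symm.right_unique (hE.jn_prev hc1 hc2).symm
            rcases Nat.eq_or_lt_of_le hc1 with h7 | h7
            · subst h7
              exact hCA y hy (h6 ▸ hE.left)
            · exact hEC (c - 1) (by omega) (by omega) (h6 ▸ hy)
          · exfalso
            subst h5
            have h6 := hjy.symm.right_unique (hE.jn c hc2)
            rcases Nat.eq_or_lt_of_le hc2 with h7 | h7
            · subst h7
              exact hCA y hy (h6 ▸ hE.right)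
            · exact hEC (c + 1) (by omega) (by omega) (h6 ▸ hy)
          · exact h5
        have huc : v c ≠ u := fun h5 => hvcX c hcc (h5 ▸ hu)
        rcases hall x (cr_single hj.symm huc) with h5 | h5 | h5
        · right
          refine ⟨c, ⟨hcc, ?_, ?_⟩, h5⟩
          · by_contra h6
            have h7 : c = 1 := by omega
            subst h7
            subst h5
            have h8 := hj.symm.right_unique (hE.jn 0 (by omega)).symm
            exact (hXm u hu).1 (h8 ▸ hE.left)
          · subst h5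
            have h8 := hj.symm.right_unique (hE.jn_prev hc1 hc2).symm
            exact h8 ▸ hu
        · left
          refine ⟨c, ⟨hcc, ?_, ?_⟩, h5⟩
          · by_contra h6
            have h7 : c = m := by omega
            subst h7
            subst h5
            have h8 := hj.symm.right_unique (hE.jn c (le_refl _))
            exact (hXm u hu).1 (h8 ▸ hE.right)
          · subst h5
            have h8 := hj.symm.right_unique (hE.jn c hc2)
            exact h8 ▸ hu
        · exfalso
          rw [h5, ← heh] at hj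
          have h8 := hj.symm.right_unique hjy.symm
          exact (hXm u hu).2.1 (h8 ▸ hy)
    have hLe : ∀ c c', LB c → LB c' → c = c' := by
      intro c c' h4 h5
      rcases Nat.lt_trichotomy c c' with h6 | h6 | h6
      · exact absurd (hLu c c' h4 h5 h6) id
      · exact h6
      · exact absurd (hLu c' c h5 h4 h6) id
    have hRe : ∀ c c', RB c → RB c' → c = c' := by
      intro c c' h4 h5
      rcases Nat.lt_trichotomy c c' with h6 | h6 | h6
      · exact absurd (hRu c c' h4 h5 h6) id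
      · exact h6
      · exact absurd (hRu c' c h5 h4 h6) id
    have htwo : ∃ e f : E, ∀ x, Cr a b X x → x = e ∨ x = f := by
      by_cases hL : ∃ c, LB c
      · obtain ⟨c, hc⟩ := hL
        by_cases hR : ∃ c, RB c
        · obtain ⟨c', hc'⟩ := hR
          refine ⟨g c, g (c' - 1), ?_⟩
          intro x hx
          rcases hcls x hx with ⟨p, u, hp, hu, hj⟩ | ⟨d, hd', rfl⟩ | ⟨d, hd', rfl⟩
          · exact absurd (hA5 x p u c c' hp hu hj hc hc') id
          · left; rw [hLe d c hd' hc]
          · right; rw [hRe d c' hd' hc']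
        · by_cases hAA : ∃ x p u, p ∈ A ∧ u ∈ X ∧ Jn a b x p u
          · obtain ⟨f, p', u', hp', hu', hj'⟩ := hAA
            refine ⟨g c, f, ?_⟩
            intro x hx
            rcases hcls x hx with ⟨p, u, hp, hu, hj⟩ | ⟨d, hd', rfl⟩ | ⟨d, hd', rfl⟩
            · right; exact hA1 x f p p' u u' hp hp' hu hu' hj hj'
            · left; rw [hLe d c hd' hc]
            · exact absurd ⟨d, hd'⟩ hR
          · refine ⟨g c, g c, ?_⟩
            intro x hx
            rcases hcls x hx with ⟨p, u, hp, hu, hj⟩ | ⟨d, hd', rfl⟩ | ⟨d, hd', rfl⟩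
            · exact absurd ⟨x, p, u, hp, hu, hj⟩ hAA
            · left; rw [hLe d c hd' hc]
            · exact absurd ⟨d, hd'⟩ hR
      · by_cases hR : ∃ c, RB c
        · obtain ⟨c', hc'⟩ := hR
          by_cases hAA : ∃ x p u, p ∈ A ∧ u ∈ X ∧ Jn a b x p u
          · obtain ⟨f, p', u', hp', hu', hj'⟩ := hAA
            refine ⟨g (c' - 1), f, ?_⟩
            intro x hx
            rcases hcls x hx with ⟨p, u, hp, hu, hj⟩ | ⟨d, hd', rfl⟩ | ⟨d, hd', rfl⟩
            · right; exact hA1 x f p p' u u' hp hp' hu hu' hj hj'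
            · exact absurd ⟨d, hd'⟩ hL
            · left; rw [hRe d c' hd' hc']
          · refine ⟨g (c' - 1), g (c' - 1), ?_⟩
            intro x hx
            rcases hcls x hx with ⟨p, u, hp, hu, hj⟩ | ⟨d, hd', rfl⟩ | ⟨d, hd', rfl⟩
            · exact absurd ⟨x, p, u, hp, hu, hj⟩ hAA
            · exact absurd ⟨d, hd'⟩ hL
            · left; rw [hRe d c' hd' hc']
        · by_cases hAA : ∃ x p u, p ∈ A ∧ u ∈ X ∧ Jn a b x p u
          · obtain ⟨f, p', u', hp', hu', hj'⟩ := hAA
            refine ⟨f, f, ?_⟩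
            intro x hx
            rcases hcls x hx with ⟨p, u, hp, hu, hj⟩ | ⟨d, hd', rfl⟩ | ⟨d, hd', rfl⟩
            · left; exact hA1 x f p p' u u' hp hp' hu hu' hj hj'
            · exact absurd ⟨d, hd'⟩ hL
            · exact absurd ⟨d, hd'⟩ hR
          · refine ⟨ρ, ρ, ?_⟩
            intro x hx
            rcases hcls x hx with ⟨p, u, hp, hu, hj⟩ | ⟨d, hd', rfl⟩ | ⟨d, hd', rfl⟩
            · exact absurd ⟨x, p, u, hp, hu, hj⟩ hAA
            · exact absurd ⟨d, hd'⟩ hL
            · exact absurd ⟨d, hd'⟩ hR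
    obtain ⟨e, f, hef⟩ := htwo
    exact h3.no_two (X := X) ⟨y0, hyX⟩
      (fun h4 => (hXm r (by rw [h4]; exact Finset.mem_univ r)).1 hr) e f hef
  refine ⟨m, v, g, hE, hz, ?_, hthird⟩
  have hCeq : (A ∪ seg v 1 m)ᶜ = C := by
    ext y
    rw [Finset.mem_compl, Finset.mem_union]
    push Not
    constructor
    · rintro ⟨h4, h5⟩
      exact hfin y h4 (fun i hi1 hi2 h6 => h5 (mem_seg.2 ⟨i, hi1, hi2, h6⟩))
    · intro h4
      refine ⟨hCA y h4, ?_⟩
      intro h5
      exact hsegC 1 m (le_refl _) (le_refl _) y h5 h4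
  rw [hCeq]
  exact hCc

end Pool.Agent.N411.EC
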