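import Pool.Agent.N411.EC.Base

set_option autoImplicit false
set_option linter.unusedSectionVars false

/-!
Reduction of colouring statements on 3-edge-connected graphs to cubic graphs: detaching two edges
at a vertex of degree at least four.
-/

namespace Pool.Agent.N411.EC

open Finset
open Pool.Agent.Helper879.ECD (cn cn_compl cn_uncross1)

/-- a colouring such that every cut has two edges outside every colour class -/
def Col (C : Type) {W E : Type} [DecidableEq W] [Fintype W] [Fintype E] (a b : E → W) : Prop :=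
  ∃ col : E → C, ∀ (γ : C) (B : Finset W), B.Nonempty → B ≠ univ →
    ∃ e f : E, e ≠ f ∧ col e ≠ γ ∧ col f ≠ γ ∧ Cr a b B e ∧ Cr a b B f

section Detach

variable {W E : Type} [DecidableEq W] [Fintype W] [DecidableEq E] [Fintype E]

/-- an end of the detached graph -/
def dt (a : E → W) (v : W) (e f : E) (c0 : Option W) : Option E → Option W
  | none => c0
  | some g => if (g = e ∨ g = f) ∧ a g = v then none else some (a g)

lemma card_filter_option (P : Option E → Prop) [DecidablePred P] :
    (univ.filter P).card = (if P none then 1 else 0) +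
      (univ.filter (fun g : E => P (some g))).card := by
  rw [Finset.card_filter, Finset.card_filter, Fintype.sum_option]

variable {a b : E → W} {v : W} {e f : E}

lemma dt_jn {g : E} {x y : W} (hg : g ≠ e) (hg' : g ≠ f) (h : Jn a b g x y) :
    Jn (dt a v e f none) (dt b v e f (some v)) (some g) (some x) (some y) := by
  have h1 : dt a v e f none (some g) = some (a g) := if_neg (fun h => by tauto)
  have h2 : dt b v e f (some v) (some g) = some (b g) := if_neg (fun h => by tauto)
  unfold Jn
  rw [h1, h2]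
  rcases h with ⟨h3, h4⟩ | ⟨h3, h4⟩
  · left; rw [h3, h4]; exact ⟨rfl, rfl⟩
  · right; rw [h3, h4]; exact ⟨rfl, rfl⟩

lemma dt_jn_e {g : E} {x : W} (hg : g = e ∨ g = f) (hx : x ≠ v) (h : Jn a b g v x) :
    Jn (dt a v e f none) (dt b v e f (some v)) (some g) none (some x) := by
  rcases h with ⟨h3, h4⟩ | ⟨h3, h4⟩
  · left
    exact ⟨if_pos ⟨hg, h3⟩, by
      show (if (g = e ∨ g = f) ∧ b g = v then none else some (b g)) = some x
      rw [if_neg, h4]
      rintro ⟨-, h5⟩
      exact hx (h4.symm.trans h5)⟩
  · right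
    exact ⟨by
      show (if (g = e ∨ g = f) ∧ a g = v then none else some (a g)) = some x
      rw [if_neg, h3]
      rintro ⟨-, h5⟩
      exact hx (h3.symm.trans h5), if_pos ⟨hg, h4⟩⟩

lemma dt_jn_none : Jn (dt a v e f none) (dt b v e f (some v)) none none (some v) :=
  Or.inl ⟨rfl, rfl⟩

/-- cuts of the detached graph which do not separate the two parts of `v` -/
lemma dt_cr_same {u w : W} (hu : u ≠ v) (hw : w ≠ v) (he : Jn a b e v u) (hf : Jn a b f v w)
    (X : Finset (Option W)) (Y : Finset W) (hY : ∀ x, x ∈ Y ↔ some x ∈ X)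
    (h : none ∈ X ↔ v ∈ Y) (g : E) :
    Cr (dt a v e f none) (dt b v e f (some v)) X (some g) ↔ Cr a b Y g := by
  by_cases h1 : g = e
  · subst h1
    rw [(dt_jn_e (Or.inl rfl) hu he).cr, he.cr, h, hY, hY]
  · by_cases h2 : g = f
    · subst h2
      rw [(dt_jn_e (Or.inr rfl) hw hf).cr, hf.cr, h, hY, hY]
    · rw [(dt_jn h1 h2 (jn_self g)).cr, (jn_self g).cr, hY, hY]

lemma dt_ncr_none (X : Finset (Option W)) (Y : Finset W) (hY : ∀ x, x ∈ Y ↔ some x ∈ X)
    (h : none ∈ X ↔ v ∈ Y) :
    ¬ Cr (dt a v e f none) (dt b v e f (some v)) X none := by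
  rw [dt_jn_none.ncr, h, hY]

lemma dt_cn_same {u w : W} (hu : u ≠ v) (hw : w ≠ v) (he : Jn a b e v u) (hf : Jn a b f v w)
    (X : Finset (Option W)) (Y : Finset W) (hY : ∀ x, x ∈ Y ↔ some x ∈ X)
    (h : none ∈ X ↔ v ∈ Y) :
    cn (dt a v e f none) (dt b v e f (some v)) univ X = cn a b univ Y := by
  rw [cn_eq, cn_eq, card_filter_option, if_neg (dt_ncr_none X Y hY h), zero_add]
  congr 1
  apply Finset.filter_congr
  intro g _
  exact dt_cr_same hu hw he hf X Y hY h g

lemma card_split (hef : e ≠ f) (P : E → Prop) [DecidablePred P] :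
    (univ.filter P).card = (if P e then 1 else 0) + (if P f then 1 else 0) +
      ((univ.filter (fun g => g ≠ e ∧ g ≠ f)).filter P).card := by
  have h1 : univ.filter P = ({e, f} : Finset E).filter P ∪
      (univ.filter (fun g => g ≠ e ∧ g ≠ f)).filter P := by
    ext g
    simp only [Finset.mem_filter, Finset.mem_univ, true_and, Finset.mem_union, Finset.mem_insert,
      Finset.mem_singleton]
    tauto
  rw [h1, Finset.card_union_of_disjoint]
  · congr 1
    rw [Finset.card_filter, Finset.sum_pair hef]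
  · rw [Finset.disjoint_left]
    intro g h2 h3
    simp only [Finset.mem_filter, Finset.mem_univ, true_and, Finset.mem_insert,
      Finset.mem_singleton] at h2 h3
    tauto

/-- cuts of the detached graph which separate the two parts of `v` -/
lemma dt_cn_sep {u w : W} (hef : e ≠ f) (hu : u ≠ v) (hw : w ≠ v) (he : Jn a b e v u)
    (hf : Jn a b f v w) (X : Finset (Option W)) (Y : Finset W) (hY : ∀ x, x ∈ Y ↔ some x ∈ X)
    (h : none ∈ X) (hv : v ∉ Y) :
    cn (dt a v e f none) (dt b v e f (some v)) univ X + 2 * (if u ∈ Y then 1 else 0) +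
      2 * (if w ∈ Y then 1 else 0) = cn a b univ Y + 3 := by
  rw [cn_eq, cn_eq, card_filter_option, card_split hef (fun g => Cr a b Y g),
    card_split hef (fun g => Cr (dt a v e f none) (dt b v e f (some v)) X (some g))]
  have h0 : Cr (dt a v e f none) (dt b v e f (some v)) X none := by
    apply cr_of_jn dt_jn_none h
    rw [← hY]; exact hv
  have h1 : Cr (dt a v e f none) (dt b v e f (some v)) X (some e) ↔ ¬ u ∈ Y := by
    rw [(dt_jn_e (Or.inl rfl) hu he).cr, hY]; tauto
  have h2 : Cr (dt a v e f none) (dt b v e f (some v)) X (some f) ↔ ¬ w ∈ Y := by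
    rw [(dt_jn_e (Or.inr rfl) hw hf).cr, hY]; tauto
  have h3 : Cr a b Y e ↔ u ∈ Y := by rw [he.cr]; tauto
  have h4 : Cr a b Y f ↔ w ∈ Y := by rw [hf.cr]; tauto
  have h5 : ((univ.filter (fun g => g ≠ e ∧ g ≠ f)).filter
      (fun g => Cr (dt a v e f none) (dt b v e f (some v)) X (some g))) =
      ((univ.filter (fun g => g ≠ e ∧ g ≠ f)).filter (fun g => Cr a b Y g)) := by
    apply Finset.filter_congr
    intro g hg
    rw [Finset.mem_filter] at hg
    rw [(dt_jn hg.2.1 hg.2.2 (jn_self g)).cr, (jn_self g).cr, hY, hY]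
  rw [if_pos h0, h5]
  simp only [h1, h2, h3, h4]
  by_cases h6 : u ∈ Y <;> by_cases h7 : w ∈ Y <;> simp [h6, h7] <;> omega

lemma dt_tec {u w : W} (h3 : TEC a b) (hef : e ≠ f) (hu : u ≠ v) (hw : w ≠ v) (he : Jn a b e v u)
    (hf : Jn a b f v w) (h4 : ∀ X : Finset W, v ∉ X → u ∈ X → w ∈ X → 4 ≤ cn a b univ X) :
    TEC (dt a v e f none) (dt b v e f (some v)) := by
  -- sets containing `none` but not `v`
  have key : ∀ X : Finset (Option W), none ∈ X → some v ∉ X →
      3 ≤ cn (dt a v e f none) (dt b v e f (some v)) univ X := by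
    intro X hX hvX
    set Y : Finset W := univ.filter (fun x => some x ∈ X) with hYd
    have hY : ∀ x, x ∈ Y ↔ some x ∈ X := by intro x; simp [hYd]
    have hvY : v ∉ Y := by rw [hY]; exact hvX
    have h5 := dt_cn_sep hef hu hw he hf X Y hY hX hvY
    by_cases h6 : u ∈ Y
    · by_cases h7 : w ∈ Y
      · have := h4 Y hvY h6 h7
        rw [if_pos h6, if_pos h7] at h5
        omega
      · have := h3 Y ⟨u, h6⟩ (fun h => hvY (h ▸ Finset.mem_univ v))
        rw [if_pos h6, if_neg h7] at h5
        omega
    · by_cases h7 : w ∈ Y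
      · have := h3 Y ⟨w, h7⟩ (fun h => hvY (h ▸ Finset.mem_univ v))
        rw [if_neg h6, if_pos h7] at h5
        omega
      · rw [if_neg h6, if_neg h7] at h5
        omega
  intro X hX1 hX2
  by_cases h5 : (none ∈ X ↔ some v ∈ X)
  · set Y : Finset W := univ.filter (fun x => some x ∈ X) with hYd
    have hY : ∀ x, x ∈ Y ↔ some x ∈ X := by intro x; simp [hYd]
    have h6 : none ∈ X ↔ v ∈ Y := by rw [hY]; exact h5
    rw [dt_cn_same hu hw he hf X Y hY h6]
    apply h3
    · obtain ⟨x, hx⟩ := hX1
      cases x with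
      | none => exact ⟨v, h6.1 hx⟩
      | some x => exact ⟨x, (hY x).2 hx⟩
    · intro h7
      apply hX2
      ext x
      simp only [Finset.mem_univ, iff_true]
      cases x with
      | none => exact h6.2 (h7 ▸ Finset.mem_univ v)
      | some x => exact (hY x).1 (h7 ▸ Finset.mem_univ x)
  · by_cases h6 : none ∈ X
    · exact key X h6 (fun h => h5 ⟨fun _ => h, fun _ => h6⟩)
    · rw [← cn_compl]
      apply key
      · rw [Finset.mem_compl]; exact h6
      · rw [Finset.mem_compl, not_not]
        by_contra h7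
        exact h5 ⟨fun h => absurd h h6, fun h => absurd h h7⟩

/-- a colouring of the detached graph gives one of the graph -/
lemma dt_col (C : Type) {u w : W} (hu : u ≠ v) (hw : w ≠ v) (he : Jn a b e v u)
    (hf : Jn a b f v w) (hc : Col C (dt a v e f none) (dt b v e f (some v))) : Col C a b := by
  obtain ⟨col, hcol⟩ := hc
  refine ⟨fun g => col (some g), ?_⟩
  intro γ B hB1 hB2
  set X : Finset (Option W) := univ.filter (fun x => x.getD v ∈ B) with hXd
  have hY : ∀ x, x ∈ B ↔ some x ∈ X := by intro x; simp [hXd]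
  have hN : none ∈ X ↔ v ∈ B := by simp [hXd]
  obtain ⟨g1, g2, hg, hc1, hc2, h1, h2⟩ := hcol γ X (by
    obtain ⟨x, hx⟩ := hB1
    exact ⟨some x, (hY x).1 hx⟩) (by
    intro h
    apply hB2
    ext x
    simp only [Finset.mem_univ, iff_true]
    rw [hY, h]
    exact Finset.mem_univ _)
  have hsome : ∀ g, Cr (dt a v e f none) (dt b v e f (some v)) X g → ∃ g', g = some g' := by
    intro g hg
    cases g with
    | none => exact absurd hg (dt_ncr_none X B hY hN)
    | some g' => exact ⟨g', rfl⟩
  obtain ⟨g1', rfl⟩ := hsome g1 h1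
  obtain ⟨g2', rfl⟩ := hsome g2 h2
  exact ⟨g1', g2', fun h => hg (by rw [h]), hc1, hc2,
    (dt_cr_same hu hw he hf X B hY hN g1').1 h1, (dt_cr_same hu hw he hf X B hY hN g2').1 h2⟩

lemma dt_deg_none {u w : W} (hef : e ≠ f) (hu : u ≠ v) (hw : w ≠ v) (he : Jn a b e v u)
    (hf : Jn a b f v w) :
    cn (dt a v e f none) (dt b v e f (some v)) univ {none} = 3 := by
  have h := dt_cn_sep hef hu hw he hf {none} ∅ (by intro x; simp) (by simp) (by simp)
  have h2 : cn a b univ ∅ = 0 := by simp [cn]
  simpa [h2] using h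

lemma dt_deg_v {u w : W} (hef : e ≠ f) (hu : u ≠ v) (hw : w ≠ v) (he : Jn a b e v u)
    (hf : Jn a b f v w) :
    cn (dt a v e f none) (dt b v e f (some v)) univ {some v} + 1 = cn a b univ {v} := by
  have h := dt_cn_sep hef hu hw he hf ({some v} : Finset (Option W))ᶜ ({v} : Finset W)ᶜ
    (by intro x; simp) (by simp) (by simp)
  rw [cn_compl, cn_compl] at h
  rw [if_pos (by simp [hu]), if_pos (by simp [hw])] at h
  omega

lemma dt_deg_other {u w : W} (hu : u ≠ v) (hw : w ≠ v) (he : Jn a b e v u)
    (hf : Jn a b f v w) {x : W} (hx : x ≠ v) :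
    cn (dt a v e f none) (dt b v e f (some v)) univ {some x} = cn a b univ {x} := by
  apply dt_cn_same hu hw he hf
  · intro y; simp
  · simp [hx.symm]

end Detach

/-- reduction to cubic graphs -/
theorem col_of_cubic (C : Type)
    (hcub : ∀ {W E : Type} [DecidableEq W] [Fintype W] [DecidableEq E] [Fintype E] (a b : E → W),
      TEC a b → (∀ v, cn a b univ {v} = 3) → Col C a b) :
    ∀ (n : ℕ) {W E : Type} [DecidableEq W] [Fintype W] [DecidableEq E] [Fintype E] (a b : E → W),
      TEC a b → (∀ v, 3 ≤ cn a b univ {v}) → ∑ v, (cn a b univ {v} - 3) = n → Col C a b := by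
  intro n
  induction n using Nat.strong_induction_on with
  | _ n ih =>
  intro W E _ _ _ _ a b h3 hd hn
  by_cases hall : ∀ v, cn a b univ {v} = 3
  · exact hcub a b h3 hall
  · push Not at hall
    obtain ⟨v, hv⟩ := hall
    have hv4 : 4 ≤ cn a b univ {v} := by
      have := hd v
      omega
    obtain ⟨e, f, hef, u, w, hu, hw, he, hf, h4⟩ := exists_pair h3 v hv4
    refine dt_col C hu hw he hf ?_
    have hsum : ∑ x : Option W, (cn (dt a v e f none) (dt b v e f (some v)) univ {x} - 3) + 1 =
        ∑ x, (cn a b univ {x} - 3) := by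
      rw [Fintype.sum_option, dt_deg_none hef hu hw he hf, Nat.sub_self, zero_add,
        ← Finset.add_sum_erase _ _ (Finset.mem_univ v),
        ← Finset.add_sum_erase univ (fun x => cn a b univ {x} - 3) (Finset.mem_univ v)]
      have h5 := dt_deg_v hef hu hw he hf
      have h6 : ∑ x ∈ univ.erase v, (cn (dt a v e f none) (dt b v e f (some v)) univ {some x} - 3) =
          ∑ x ∈ univ.erase v, (cn a b univ {x} - 3) := by
        apply Finset.sum_congr rfl
        intro x hx
        rw [dt_deg_other hu hw he hf (Finset.ne_of_mem_erase hx)]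
      rw [h6]
      omega
    refine ih (n - 1) (by omega) _ _ (dt_tec h3 hef hu hw he hf h4) ?_ (by omega)
    intro x
    cases x with
    | none => rw [dt_deg_none hef hu hw he hf]
    | some x =>
      by_cases hx : x = v
      · rw [hx]
        have := dt_deg_v hef hu hw he hf
        omega
      · rw [dt_deg_other hu hw he hf hx]
        exact hd x

end Pool.Agent.N411.EC
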