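import Pool.Agent.N411.EC.State
import Pool.Agent.N411.EC.Red
import Pool.Agent.H126R2.NC.L2

set_option autoImplicit false
set_option linter.unusedSectionVars false

/-!
Every 3-edge-connected graph has an edge colouring with eight colours such that every cut has two
edges outside every colour class.
-/

namespace Pool.Agent.N411.EC

open Finset
open Pool.Agent.Helper879.ECD (cn cn_compl cn_uncross1)
open Pool.Agent.H126R2.NC (Spn Acy cr exists_base exists_tree_colouring)

variable {W E : Type} [DecidableEq W] [Fintype W] [DecidableEq E] [Fintype E] {a b : E → W}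

/-- `S` is split by `c` into classes whose deletion leaves two edges in every cut -/
def Spl (C : Type) (a b : E → W) (S : Finset E) (c : E → C) : Prop :=
  ∀ (γ : C) (X : Finset W), X.Nonempty → X ≠ univ →
    ∃ e f : E, e ≠ f ∧ (e ∈ S → c e ≠ γ) ∧ (f ∈ S → c f ≠ γ) ∧ Cr a b X e ∧ Cr a b X f

lemma TEC.exists_cr (h3 : TEC a b) {X : Finset W} (h1 : X.Nonempty) (h2 : X ≠ univ) :
    ∃ e, Cr a b X e := by
  have h4 := h3 X h1 h2
  rw [cn_eq] at h4
  obtain ⟨e, he⟩ := Finset.card_pos.1 (show 0 < (univ.filter (fun e => Cr a b X e)).card by omega)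
  exact ⟨e, (Finset.mem_filter.1 he).2⟩

/-- three colours suffice for a set with connected complement -/
lemma three_colour (h3 : TEC a b) (S : Finset E)
    (hS : ∀ X : Finset W, X.Nonempty → X ≠ univ → ∃ e, e ∉ S ∧ Cr a b X e) :
    ∃ c : E → Fin 3, Spl (Fin 3) a b S c := by
  classical
  have hSp : Spn a b (univ \ S) := by
    intro X hX e he
    obtain ⟨u, w, hu, hw, hj⟩ := exists_jn_of_cr (a := a) (b := b) (X := X) (e := e) he
    obtain ⟨f, hf1, hf2⟩ := hS X ⟨u, hu⟩ (fun h => hw (h ▸ Finset.mem_univ w))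
    exact hX f (by rw [Finset.mem_sdiff]; exact ⟨Finset.mem_univ _, hf1⟩) hf2
  obtain ⟨T, hT, hTs, hTa⟩ := exists_base a b _ hSp
  obtain ⟨c, hc⟩ := exists_tree_colouring a b T hTa hTs
  have hTS : ∀ t ∈ T, t ∉ S := by
    intro t ht
    have := hT ht
    rw [Finset.mem_sdiff] at this
    exact this.2
  refine ⟨c, ?_⟩
  intro γ X h1 h2
  obtain ⟨e0, he0⟩ := h3.exists_cr h1 h2
  have hex : ∃ t ∈ T, Cr a b X t := by
    by_contra hcon
    push Not at hcon
    exact hTs X (fun t ht => hcon t ht) e0 he0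
  obtain ⟨t, ht, htX⟩ := hex
  by_cases hex2 : ∃ t' ∈ T, t' ≠ t ∧ Cr a b X t'
  · obtain ⟨t', ht', hne, htX'⟩ := hex2
    exact ⟨t', t, hne, fun h => absurd h (hTS t' ht'), fun h => absurd h (hTS t ht), htX', htX⟩
  · push Not at hex2
    have hcn : cn a b T X = 1 := by
      unfold cn
      rw [Finset.card_eq_one]
      refine ⟨t, ?_⟩
      ext e
      rw [Finset.mem_filter, Finset.mem_singleton]
      constructor
      · rintro ⟨h4, h5⟩
        by_contra h6
        exact hex2 e h4 h6 h5
      · rintro rfl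
        exact ⟨ht, htX⟩
    have h4 : 2 ≤ (univ.filter (fun e => e ∉ T ∧ cr a b X e)).card := by
      have h5 := h3 X h1 h2
      rw [cn_eq] at h5
      have h6 : (univ.filter (fun e => Cr a b X e)) ⊆
          insert t (univ.filter (fun e => e ∉ T ∧ cr a b X e)) := by
        intro e he
        rw [Finset.mem_filter] at he
        rw [Finset.mem_insert, Finset.mem_filter]
        by_cases heT : e ∈ T
        · left
          by_contra h7
          exact hex2 e heT h7 he.2
        · right
          exact ⟨Finset.mem_univ _, heT, he.2⟩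
      have h7 := Finset.card_le_card h6
      have h8 := Finset.card_insert_le t (univ.filter (fun e => e ∉ T ∧ cr a b X e))
      omega
    obtain ⟨e, e', he1, he2, he'1, he'2, hne⟩ := hc X hcn h4
    by_cases h5 : c e = γ
    · have h6 : c e' ≠ γ := fun h6 => hne (h5.trans h6.symm)
      exact ⟨e', t, fun h => he'1 (h ▸ ht), fun _ => h6, fun h => absurd h (hTS t ht), he'2, htX⟩
    · exact ⟨e, t, fun h => he1 (h ▸ ht), fun _ => h5, fun h => absurd h (hTS t ht), he2, htX⟩

/-- two-colouring along a rank-increasing map -/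
lemma rank_colour {ι : Type} [Finite ι] (rk : ι → ℕ) (σ : ι → ι) (P : ι → Prop)
    (h : ∀ x, P x → rk x < rk (σ x)) : ∃ c : ι → Bool, ∀ x, P x → c x ≠ c (σ x) := by
  classical
  cases nonempty_fintype ι
  obtain ⟨M, hM⟩ : ∃ M, ∀ x, rk x ≤ M := by
    refine ⟨univ.sup rk, fun x => Finset.le_sup (Finset.mem_univ x)⟩
  have key : ∀ n, ∃ c : ι → Bool, ∀ x, P x → M < rk x + n → c x ≠ c (σ x) := by
    intro n
    induction n with
    | zero =>
      refine ⟨fun _ => true, fun x _ h2 => ?_⟩
      have := hM x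
      omega
    | succ n ih =>
      obtain ⟨c, hc⟩ := ih
      refine ⟨fun x => if rk x + n = M then !(c (σ x)) else c x, ?_⟩
      intro x hx h2
      by_cases h4 : rk x + n = M
      · have h5 := h x hx
        simp only [if_pos h4, if_neg (show ¬ rk (σ x) + n = M by omega)]
        cases c (σ x) <;> simp
      · have h5 := h x hx
        simp only [if_neg h4, if_neg (show ¬ rk (σ x) + n = M by omega)]
        exact hc x hx (by omega)
  obtain ⟨c, hc⟩ := key (M + 1)
  exact ⟨c, fun x hx => hc x hx (by omega)⟩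

/-- the `b`-edges of a final state are split by two colours -/
lemma St.two_colour {r z : W} {ρ : E} (s : St a b r z ρ {z}ᶜ) (hd : ∀ v, cn a b univ {v} = 3)
    (hρ : Jn a b ρ r z) : ∃ c : E → Bool, Spl Bool a b s.S1 c := by
  classical
  let Dn : E → E → Prop := fun e e' => e' ∈ s.S1 ∧ s.rk e < s.rk e' ∧
    ∀ w ∈ ({z} : Finset W)ᶜ, w ≠ r → s.kb w = e → Cr a b (s.D w) e'
  obtain ⟨c, hc⟩ := rank_colour s.rk (fun e => if h : ∃ e', Dn e e' then h.choose else e)
    (fun e => ∃ e', Dn e e') (by
      intro e he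
      simp only [dif_pos he]
      exact he.choose_spec.2.1)
  have hc' : ∀ e, (∃ e', Dn e e') → ∃ e', Dn e e' ∧ c e ≠ c e' := by
    intro e he
    have h1 := hc e he
    simp only [dif_pos he] at h1
    exact ⟨he.choose, he.choose_spec, h1⟩
  have hAz : ∀ {x : W}, x ∈ ({z} : Finset W)ᶜ ↔ x ≠ z := by
    intro x; rw [Finset.mem_compl, Finset.mem_singleton]
  have hzr : r ≠ z := hAz.1 s.rA
  -- edges at `z` are not in `S1`
  have hz1 : ∀ e u, Jn a b e u z → e ∉ s.S1 := by
    intro e u hj h1
    obtain ⟨x, y, hx, hy, hj'⟩ := s.s1_in e h1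
    rcases hj.pair hj' with ⟨-, h2⟩ | ⟨-, h2⟩
    · exact hAz.1 hy h2.symm
    · exact hAz.1 hx h2.symm
  have hzt : ∀ e u, Jn a b e u z → ∀ w ∈ ({z} : Finset W)ᶜ, w ≠ r → e ≠ s.te w := by
    intro e u hj w hw hwr h1
    obtain ⟨x, y, hx, hy, hj'⟩ := s.te_in w hw hwr
    rw [← h1] at hj'
    rcases hj.pair hj' with ⟨-, h2⟩ | ⟨-, h2⟩
    · exact hAz.1 hy h2.symm
    · exact hAz.1 hx h2.symm
  refine ⟨c, ?_⟩
  intro γ X hX1 hX2
  by_cases hA : ∃ w ∈ ({z} : Finset W)ᶜ, w ≠ r ∧ Cr a b X (s.te w)
  · obtain ⟨w, hw, hwr, hwX⟩ := hA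
    by_cases hρX : Cr a b X ρ
    · exact ⟨ρ, s.te w, hzt ρ r hρ w hw hwr, fun h => absurd h (hz1 ρ r hρ),
        fun h => absurd h (s.te_s1 w hw hwr), hρX, hwX⟩
    · by_cases hB : ∃ w' ∈ ({z} : Finset W)ᶜ, w' ≠ r ∧ w' ≠ w ∧ Cr a b X (s.te w')
      · obtain ⟨w', hw', hwr', hne, hwX'⟩ := hB
        refine ⟨s.te w', s.te w, ?_, fun h => absurd h (s.te_s1 w' hw' hwr'),
          fun h => absurd h (s.te_s1 w hw hwr), hwX', hwX⟩
        intro h1
        apply s.D_te' w hw hwr w' hw' hwr' hne
        rw [h1]; exact s.D_te w hw hwr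
      · push Not at hB
        -- `X` is `D w` or its complement
        have hDw := s.D_te w hw hwr
        have h1 := s.te_sp (univ.filter (fun x => ¬ (x ∈ X ↔ x ∈ s.D w))) (by
          intro w' hw' hwr'
          by_cases h2 : w' = w
          · subst h2
            unfold Cr at hwX hDw ⊢
            simp only [Finset.mem_filter, Finset.mem_univ, true_and]
            tauto
          · have h4 := hB w' hw' hwr' h2
            have h5 := s.D_te' w hw hwr w' hw' hwr' h2
            unfold Cr at h4 h5 ⊢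
            simp only [Finset.mem_filter, Finset.mem_univ, true_and]
            tauto)
        simp only [Finset.mem_filter, Finset.mem_univ, true_and] at h1
        have hrD := s.D_r w hw hwr
        have hzD : z ∉ s.D w := fun h => hAz.1 (s.D_sub w hw hwr h) rfl
        have hρX' : r ∈ X ↔ z ∈ X := (hρ.ncr X).1 hρX
        have hall : ∀ x, (¬ (x ∈ X ↔ x ∈ s.D w) ↔ r ∈ X) := by
          intro x
          by_cases hxz : x = z
          · subst hxz; tauto
          · have h2 := h1 x (hAz.2 hxz)
            tauto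
        have hcr : ∀ e, Cr a b X e ↔ Cr a b (s.D w) e := by
          intro e
          have h2 := hall (a e)
          have h4 := hall (b e)
          unfold Cr
          tauto
        have hkb := s.kb_s1 w hw hwr
        by_cases hck : c (s.kb w) = γ
        · rcases s.status _ hkb with hdn | ⟨ω, hω, ⟨h, y, hj, hy⟩, hω2⟩
          · obtain ⟨e', he', hce⟩ := hc' _ hdn
            refine ⟨e', s.te w, ?_, fun _ h2 => hce (hck.trans h2.symm),
              fun h => absurd h (s.te_s1 w hw hwr), (hcr _).2 (he'.2.2 w hw hwr rfl), hwX⟩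
            intro h2
            exact s.te_s1 w hw hwr (h2 ▸ he'.1)
          · have hyz : y = z := by
              by_contra h2
              exact hy (hAz.2 h2)
            subst hyz
            refine ⟨h, s.te w, hzt h ω hj w hw hwr, fun h2 => absurd h2 (hz1 h ω hj),
              fun h => absurd h (s.te_s1 w hw hwr), (hcr _).2 ?_, hwX⟩
            exact cr_of_jn hj (hω2 w hw hwr rfl).1 hzD
        · refine ⟨s.kb w, s.te w, ?_, fun _ => hck, fun h => absurd h (s.te_s1 w hw hwr),
            (hcr _).2 (s.kb_cr w hw hwr), hwX⟩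
          intro h2
          exact s.te_s1 w hw hwr (h2 ▸ hkb)
  · push Not at hA
    have h1 := s.te_sp X (fun w hw hwr => hA w hw hwr)
    have hρX : ¬ (r ∈ X ↔ z ∈ X) := by
      intro h2
      by_cases hr : r ∈ X
      · apply hX2
        ext x
        simp only [Finset.mem_univ, iff_true]
        by_cases hxz : x = z
        · rw [hxz]; exact h2.1 hr
        · exact (h1 x (hAz.2 hxz)).2 hr
      · obtain ⟨x, hx⟩ := hX1
        by_cases hxz : x = z
        · rw [hxz] at hx; exact hr (h2.2 hx)
        · exact hr ((h1 x (hAz.2 hxz)).1 hx)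
    -- a second edge at `z`
    have hdz := hd z
    rw [cn_eq] at hdz
    have h2 : 0 < ((univ.filter (fun e => Cr a b {z} e)).erase ρ).card := by
      have := Finset.pred_card_le_card_erase (s := univ.filter (fun e => Cr a b {z} e)) (a := ρ)
      omega
    obtain ⟨f, hf⟩ := Finset.card_pos.1 h2
    rw [Finset.mem_erase, Finset.mem_filter] at hf
    obtain ⟨x, y, hx, hy, hj⟩ := exists_jn_of_cr hf.2.2
    rw [Finset.mem_singleton] at hx hy
    subst hx
    refine ⟨f, ρ, hf.1, fun h => absurd h (hz1 f y hj.symm), fun h => absurd h (hz1 ρ r hρ), ?_, ?_⟩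
    · rw [hj.cr]
      have := h1 y (hAz.2 hy)
      tauto
    · rw [hρ.cr]; exact hρX

/-- deleting one vertex of a cubic 3-edge-connected graph leaves a connected graph -/
lemma con_compl_singleton (h3 : TEC a b) (hd : ∀ v, cn a b univ {v} = 3) (r : W) :
    Con a b ({r} : Finset W)ᶜ := by
  classical
  intro X hX hne hX2
  by_contra hcon
  push Not at hcon
  have hrX : r ∉ X := by
    intro h
    have := hX h
    rw [Finset.mem_compl, Finset.mem_singleton] at this
    exact this rfl
  have hout : ∀ e u w, u ∈ X → w ∉ X → Jn a b e u w → w = r := by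
    intro e u w hu hw hj
    by_contra h
    exact hcon e u w hu (by rw [Finset.mem_compl, Finset.mem_singleton]; exact h) hw hj
  -- the other side
  have hY : ∃ y, y ∉ X ∧ y ≠ r := by
    by_contra h
    push Not at h
    apply hX2
    refine Finset.Subset.antisymm hX ?_
    intro y hy
    rw [Finset.mem_compl, Finset.mem_singleton] at hy
    by_contra h2
    exact hy (h y h2)
  obtain ⟨y, hyX, hyr⟩ := hY
  have c1 := h3 X hne (fun h => hrX (h ▸ Finset.mem_univ r))
  have c2 := h3 (insert r X) ⟨r, Finset.mem_insert_self _ _⟩ (by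
    intro h
    have : y ∈ insert r X := by rw [h]; exact Finset.mem_univ _
    rw [Finset.mem_insert] at this
    tauto)
  have c3 := hd r
  rw [cn_eq] at c1 c2 c3
  have hdisj : Disjoint (univ.filter (fun e => Cr a b X e))
      (univ.filter (fun e => Cr a b (insert r X) e)) := by
    rw [Finset.disjoint_left]
    intro e he1 he2
    rw [Finset.mem_filter] at he1 he2
    obtain ⟨u, w, hu, hw, hj⟩ := exists_jn_of_cr he1.2
    have := hout e u w hu hw hj
    subst this
    have h4 := he2.2
    rw [hj.cr, Finset.mem_insert, Finset.mem_insert] at h4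
    tauto
  have hsub : (univ.filter (fun e => Cr a b X e)) ∪ (univ.filter (fun e => Cr a b (insert r X) e)) ⊆
      univ.filter (fun e => Cr a b {r} e) := by
    intro e he
    rw [Finset.mem_union, Finset.mem_filter, Finset.mem_filter] at he
    rw [Finset.mem_filter]
    refine ⟨Finset.mem_univ _, ?_⟩
    rcases he with he | he
    · obtain ⟨u, w, hu, hw, hj⟩ := exists_jn_of_cr he.2
      have := hout e u w hu hw hj
      subst this
      exact cr_single hj.symm (fun h => hrX (h ▸ hu))
    · obtain ⟨u, w, hu, hw, hj⟩ := exists_jn_of_cr he.2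
      rw [Finset.mem_insert] at hu hw
      push Not at hw
      rcases hu with rfl | hu
      · exact cr_single hj (Ne.symm hw.1)
      · exact absurd (hout e u w hu hw.2 hj) hw.1
  have h5 := Finset.card_le_card hsub
  rw [Finset.card_union_of_disjoint hdisj] at h5
  omega

/-- the initial state -/
lemma st_init (h3 : TEC a b) (hd : ∀ v, cn a b univ {v} = 3) {r z : W} {ρ : E}
    (hρ : Jn a b ρ r z) (hrz : r ≠ z) : Nonempty (St a b r z ρ {r}) := by
  classical
  have hone : ∀ w ∈ ({r} : Finset W), w ≠ r → False := by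
    intro w hw hwr
    rw [Finset.mem_singleton] at hw
    exact hwr hw
  refine ⟨{
    S1 := ∅
    S2 := ∅
    pos := fun _ => 0
    rk := fun _ => 0
    te := fun _ => ρ
    kb := fun _ => ρ
    D := fun _ => ∅
    rA := Finset.mem_singleton_self r
    zA := by rw [Finset.mem_singleton]; exact hrz.symm
    con := con_compl_singleton h3 hd r
    s1_in := fun e he => absurd he (Finset.notMem_empty _)
    s2_in := fun e he => absurd he (Finset.notMem_empty _)
    te_in := fun w hw hwr => (hone w hw hwr).elim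
    te_s1 := fun w hw hwr => (hone w hw hwr).elim
    te_sp := fun X _ v hv => by rw [Finset.mem_singleton.1 hv]
    D_sub := fun w hw hwr => (hone w hw hwr).elim
    D_r := fun w hw hwr => (hone w hw hwr).elim
    D_te := fun w hw hwr => (hone w hw hwr).elim
    D_te' := fun w hw hwr => (hone w hw hwr).elim
    kb_s1 := fun w hw hwr => (hone w hw hwr).elim
    kb_cr := fun w hw hwr => (hone w hw hwr).elim
    s2_sp := fun X _ v hv => by rw [Finset.mem_singleton.1 hv]
    s3_sp := ?_
    pos_inj := fun x hx y hy _ => by rw [Finset.mem_singleton.1 hx, Finset.mem_singleton.1 hy]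
    rk_lt := fun e he => absurd he (Finset.notMem_empty _)
    status := fun e he => absurd he (Finset.notMem_empty _) }⟩
  intro X _ _ hX v hv
  rw [Finset.mem_singleton] at hv
  subst hv
  have hdz := hd v
  rw [cn_eq] at hdz
  have h2 : 0 < ((univ.filter (fun e => Cr a b {v} e)).erase ρ).card := by
    have := Finset.pred_card_le_card_erase (s := univ.filter (fun e => Cr a b {v} e)) (a := ρ)
    omega
  obtain ⟨f, hf⟩ := Finset.card_pos.1 h2
  rw [Finset.mem_erase, Finset.mem_filter] at hf
  obtain ⟨x, y, hx, hy, hj⟩ := exists_jn_of_cr hf.2.2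
  rw [Finset.mem_singleton] at hx
  subst hx
  refine ⟨y, hy, ?_⟩
  have := hX f x y (Finset.mem_singleton_self x) hy hj hf.1
  rwa [hj.ncr] at this

/-- a final state exists -/
lemma exists_final (h3 : TEC a b) (hd : ∀ v, cn a b univ {v} = 3) {r z : W} {ρ : E}
    (hρ : Jn a b ρ r z) : ∀ (n : ℕ) (A : Finset W), Aᶜ.card = n → Nonempty (St a b r z ρ A) →
      Nonempty (St a b r z ρ {z}ᶜ) := by
  intro n
  induction n using Nat.strong_induction_on with
  | _ n ih =>
  intro A hA ⟨s⟩
  by_cases hw : ∃ w0, w0 ∉ A ∧ w0 ≠ z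
  · obtain ⟨w0, hw0, hwz⟩ := hw
    obtain ⟨A', hA', hs'⟩ := s.step' h3 hd hρ hw0 hwz
    refine ih A'ᶜ.card ?_ A' rfl hs'
    rw [← hA]
    apply Finset.card_lt_card
    rw [Finset.compl_ssubset_compl]
    exact hA'
  · push Not at hw
    have : A = ({z} : Finset W)ᶜ := by
      ext x
      rw [Finset.mem_compl, Finset.mem_singleton]
      constructor
      · rintro hx rfl
        exact s.zA hx
      · intro hx
        by_contra h2
        exact hx (hw x h2)
    subst this
    exact ⟨s⟩

/-- cubic graphs -/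
theorem eight_cubic (h3 : TEC a b) (hd : ∀ v, cn a b univ {v} = 3) :
    Col (Bool ⊕ (Fin 3 ⊕ Fin 3)) a b := by
  classical
  by_cases hW : Nonempty W
  swap
  · exact ⟨fun _ => Sum.inl true, fun γ B hB _ => by
      obtain ⟨x, -⟩ := hB
      exact absurd ⟨x⟩ hW⟩
  obtain ⟨r⟩ := hW
  have hdr := hd r
  rw [cn_eq] at hdr
  obtain ⟨ρ, hρ0⟩ := Finset.card_pos.1 (show 0 < (univ.filter (fun e => Cr a b {r} e)).card by omega)
  rw [Finset.mem_filter] at hρ0
  obtain ⟨x, z, hx, hz, hρ⟩ := exists_jn_of_cr hρ0.2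
  rw [Finset.mem_singleton] at hx hz
  subst hx
  obtain ⟨s⟩ := exists_final h3 hd hρ _ {x} rfl (st_init h3 hd hρ (Ne.symm hz))
  have hAz : ∀ {y : W}, y ∈ ({z} : Finset W)ᶜ ↔ y ≠ z := by
    intro x; rw [Finset.mem_compl, Finset.mem_singleton]
  obtain ⟨c1, hc1⟩ := s.two_colour hd hρ
  -- the second class
  let S2' : Finset E := s.S2 ∪ (univ.filter (fun e => Cr a b {z} e ∧ e ≠ ρ))
  have hρ2 : ρ ∉ s.S2 := by
    intro h1
    obtain ⟨u, w, hu, hw, hj⟩ := s.s2_in ρ h1
    rcases hρ.pair hj with ⟨-, h2⟩ | ⟨-, h2⟩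
    · exact hAz.1 hw h2.symm
    · exact hAz.1 hu h2.symm
  have hρ1 : ρ ∉ s.S1 := by
    intro h1
    obtain ⟨u, w, hu, hw, hj⟩ := s.s1_in ρ h1
    rcases hρ.pair hj with ⟨-, h2⟩ | ⟨-, h2⟩
    · exact hAz.1 hw h2.symm
    · exact hAz.1 hu h2.symm
  have htriv : ∀ X : Finset W, X.Nonempty → X ≠ univ → (∀ y, y ∈ X ↔ z ∈ X) → False := by
    intro X hX1 hX2 h
    by_cases hzX : z ∈ X
    · exact hX2 (by ext y; simp only [Finset.mem_univ, iff_true]; exact (h y).2 hzX)
    · obtain ⟨y, hy⟩ := hX1
      exact hzX ((h y).1 hy)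
  obtain ⟨c2, hc2⟩ := three_colour h3 S2' (by
    intro X hX1 hX2
    by_contra hcon
    push Not at hcon
    have h1 := s.s2_sp X (by
      intro e u w hu hw hj he
      apply hcon
      rw [Finset.mem_union, Finset.mem_filter]
      push Not
      refine ⟨he, fun _ h2 => ?_⟩
      rw [hj.cr, Finset.mem_singleton, Finset.mem_singleton] at h2
      have := hAz.1 hu
      have := hAz.1 hw
      tauto)
    have h2 := hcon ρ (by
      rw [Finset.mem_union, Finset.mem_filter]
      push Not
      exact ⟨hρ2, fun _ _ => rfl⟩)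
    rw [hρ.ncr] at h2
    refine htriv X hX1 hX2 (fun y => ?_)
    by_cases hyz : y = z
    · rw [hyz]
    · exact (h1 y (hAz.2 hyz)).trans h2)
  obtain ⟨c3, hc3⟩ := three_colour h3 (univ \ (s.S1 ∪ S2')) (by
    intro X hX1 hX2
    by_contra hcon
    push Not at hcon
    have hcon' : ∀ e, e ∈ s.S1 ∪ S2' → ¬ Cr a b X e := by
      intro e he
      apply hcon
      rw [Finset.mem_sdiff]
      push Not
      exact fun _ => he
    have h1 := s.s3_sp X (fun e he => hcon' e (Finset.mem_union_left _ he))
      (fun e he => hcon' e (Finset.mem_union_right _ (Finset.mem_union_left _ he))) (by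
        intro e u w hu hw hj he
        apply hcon'
        apply Finset.mem_union_right
        apply Finset.mem_union_right
        rw [Finset.mem_filter]
        refine ⟨Finset.mem_univ _, ?_, he⟩
        have hwz : w = z := by
          by_contra h2
          exact hw (hAz.2 h2)
        subst hwz
        exact cr_single hj.symm (Ne.symm (hAz.1 hu)))
    refine htriv X hX1 hX2 (fun y => ?_)
    by_cases hyz : y = z
    · rw [hyz]
    · obtain ⟨u, hu, h2⟩ := h1 y (hAz.2 hyz)
      have huz : u = z := by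
        by_contra h4
        exact hu (hAz.2 h4)
      rw [huz] at h2
      exact h2)
  refine ⟨fun e => if e ∈ s.S1 then Sum.inl (c1 e) else if e ∈ S2' then Sum.inr (Sum.inl (c2 e))
    else Sum.inr (Sum.inr (c3 e)), ?_⟩
  intro γ X hX1 hX2
  rcases γ with γ | γ | γ
  · obtain ⟨e, f, hef, he, hf, h1, h2⟩ := hc1 γ X hX1 hX2
    have key : ∀ e, (e ∈ s.S1 → c1 e ≠ γ) → (if e ∈ s.S1 then Sum.inl (c1 e) else if e ∈ S2' then
        Sum.inr (Sum.inl (c2 e)) else Sum.inr (Sum.inr (c3 e))) ≠
        (Sum.inl γ : Bool ⊕ (Fin 3 ⊕ Fin 3)) := by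
      intro e he
      by_cases h4 : e ∈ s.S1
      · rw [if_pos h4]
        intro h5
        exact he h4 (Sum.inl.inj h5)
      · rw [if_neg h4]
        split_ifs <;> simp
    exact ⟨e, f, hef, key e he, key f hf, h1, h2⟩
  · obtain ⟨e, f, hef, he, hf, h1, h2⟩ := hc2 γ X hX1 hX2
    have key : ∀ e, (e ∈ S2' → c2 e ≠ γ) → (if e ∈ s.S1 then Sum.inl (c1 e) else if e ∈ S2' then
        Sum.inr (Sum.inl (c2 e)) else Sum.inr (Sum.inr (c3 e))) ≠
        (Sum.inr (Sum.inl γ) : Bool ⊕ (Fin 3 ⊕ Fin 3)) := by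
      intro e he
      by_cases h4 : e ∈ s.S1
      · rw [if_pos h4]; simp
      · rw [if_neg h4]
        by_cases h5 : e ∈ S2'
        · rw [if_pos h5]
          intro h6
          exact he h5 (Sum.inl.inj (Sum.inr.inj h6))
        · rw [if_neg h5]; simp
    exact ⟨e, f, hef, key e he, key f hf, h1, h2⟩
  · obtain ⟨e, f, hef, he, hf, h1, h2⟩ := hc3 γ X hX1 hX2
    have key : ∀ e, (e ∈ univ \ (s.S1 ∪ S2') → c3 e ≠ γ) → (if e ∈ s.S1 then Sum.inl (c1 e) else
        if e ∈ S2' then Sum.inr (Sum.inl (c2 e)) else Sum.inr (Sum.inr (c3 e))) ≠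
        (Sum.inr (Sum.inr γ) : Bool ⊕ (Fin 3 ⊕ Fin 3)) := by
      intro e he
      by_cases h4 : e ∈ s.S1
      · rw [if_pos h4]; simp
      · rw [if_neg h4]
        by_cases h5 : e ∈ S2'
        · rw [if_pos h5]; simp
        · rw [if_neg h5]
          intro h6
          refine he ?_ (Sum.inr.inj (Sum.inr.inj h6))
          rw [Finset.mem_sdiff, Finset.mem_union]
          exact ⟨Finset.mem_univ _, by tauto⟩
    exact ⟨e, f, hef, key e he, key f hf, h1, h2⟩

/-- every 3-edge-connected graph has the eight-colouring -/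
theorem eight_tec (h3 : TEC a b) : Col (Bool ⊕ (Fin 3 ⊕ Fin 3)) a b := by
  classical
  by_cases hW : ∃ x y : W, x ≠ y
  · refine col_of_cubic _ (fun a b h3 hd => eight_cubic h3 hd) _ a b h3 ?_ rfl
    intro v
    apply h3 {v} ⟨v, Finset.mem_singleton_self v⟩
    intro h
    obtain ⟨x, y, hxy⟩ := hW
    have h1 : x ∈ ({v} : Finset W) := by rw [h]; exact Finset.mem_univ _
    have h2 : y ∈ ({v} : Finset W) := by rw [h]; exact Finset.mem_univ _
    rw [Finset.mem_singleton] at h1 h2
    exact hxy (h1.trans h2.symm)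
  · push Not at hW
    refine ⟨fun _ => Sum.inl true, fun γ B hB hB2 => ?_⟩
    exfalso
    apply hB2
    obtain ⟨x, hx⟩ := hB
    ext y
    simp only [Finset.mem_univ, iff_true]
    rw [hW y x]; exact hx

end Pool.Agent.N411.EC
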