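import Pool.Agent.N411.EC.EarM

set_option autoImplicit false
set_option linter.unusedSectionVars false

/-!
The state of the construction: a visited set `A` with two trees, a linear order, and the colouring
data of the tree `te`.
-/

namespace Pool.Agent.N411.EC

open Finset
open Pool.Agent.Helper879.ECD (cn cn_compl cn_uncross1)

variable {W E : Type} [DecidableEq W] [Fintype W] [DecidableEq E] [Fintype E] {a b : E → W}

/-- state of the construction -/
structure St (a b : E → W) (r z : W) (ρ : E) (A : Finset W) where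
  S1 : Finset E
  S2 : Finset E
  pos : W → ℕ
  rk : E → ℕ
  te : W → E
  kb : W → E
  D : W → Finset W
  rA : r ∈ A
  zA : z ∉ A
  con : Con a b Aᶜ
  s1_in : ∀ e ∈ S1, ∃ u w, u ∈ A ∧ w ∈ A ∧ Jn a b e u w
  s2_in : ∀ e ∈ S2, ∃ u w, u ∈ A ∧ w ∈ A ∧ Jn a b e u w
  te_in : ∀ w ∈ A, w ≠ r → ∃ u u', u ∈ A ∧ u' ∈ A ∧ Jn a b (te w) u u'
  te_s1 : ∀ w ∈ A, w ≠ r → te w ∉ S1
  te_sp : ∀ X : Finset W, (∀ w ∈ A, w ≠ r → ¬ Cr a b X (te w)) → ∀ v ∈ A, (v ∈ X ↔ r ∈ X)
  D_sub : ∀ w ∈ A, w ≠ r → D w ⊆ A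
  D_r : ∀ w ∈ A, w ≠ r → r ∉ D w
  D_te : ∀ w ∈ A, w ≠ r → Cr a b (D w) (te w)
  D_te' : ∀ w ∈ A, w ≠ r → ∀ w' ∈ A, w' ≠ r → w' ≠ w → ¬ Cr a b (D w) (te w')
  kb_s1 : ∀ w ∈ A, w ≠ r → kb w ∈ S1
  kb_cr : ∀ w ∈ A, w ≠ r → Cr a b (D w) (kb w)
  s2_sp : ∀ X : Finset W, (∀ e u w, u ∈ A → w ∈ A → Jn a b e u w → e ∉ S2 → ¬ Cr a b X e) →
    ∀ v ∈ A, (v ∈ X ↔ r ∈ X)
  s3_sp : ∀ X : Finset W, (∀ e ∈ S1, ¬ Cr a b X e) → (∀ e ∈ S2, ¬ Cr a b X e) →
    (∀ e u w, u ∈ A → w ∉ A → Jn a b e u w → e ≠ ρ → ¬ Cr a b X e) →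
    ∀ v ∈ A, ∃ u, u ∉ A ∧ (v ∈ X ↔ u ∈ X)
  pos_inj : ∀ x ∈ A, ∀ y ∈ A, pos x = pos y → x = y
  rk_lt : ∀ e ∈ S1, rk e < A.card
  status : ∀ e ∈ S1, (∃ e' ∈ S1, rk e < rk e' ∧ ∀ w ∈ A, w ≠ r → kb w = e → Cr a b (D w) e') ∨
    (∃ ω ∈ A, (∃ h y, Jn a b h ω y ∧ y ∉ A) ∧
      ∀ w ∈ A, w ≠ r → kb w = e → ω ∈ D w ∧ ∀ x ∈ D w, pos x ≤ pos ω)

/-- reversal of an ear -/
lemma Ear.rev {A : Finset W} {m : ℕ} {v : ℕ → W} {g : ℕ → E} (h : Ear a b A m v g) :
    Ear a b A m (fun i => v (m + 1 - i)) (fun i => g (m - i)) := by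
  refine ⟨h.one_le, ?_, ?_, ?_, ?_, ?_, ?_⟩
  · intro i hi
    have h1 := h.jn (m - i) (by omega)
    rw [show m - i + 1 = m + 1 - i by omega] at h1
    show Jn a b (g (m - i)) (v (m + 1 - i)) (v (m + 1 - (i + 1)))
    rw [show m + 1 - (i + 1) = m - i by omega]
    exact h1.symm
  · exact h.right
  · show v (m + 1 - (m + 1)) ∈ A
    rw [Nat.sub_self]; exact h.left
  · intro i hi1 hi2
    exact h.nmem _ (by omega) (by omega)
  · intro i j hi1 hi2 hj1 hj2 hij
    have := h.inj _ _ (by omega) (by omega) (by omega) (by omega) hij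
    omega
  · show g (m - 0) ≠ g (m - m)
    rw [Nat.sub_self, Nat.sub_zero]; exact h.ne.symm

/-- the conclusion of the ear lemma as a predicate -/
def GoodEar (a b : E → W) (A : Finset W) (z : W) (m : ℕ) (v : ℕ → W) (g : ℕ → E) : Prop :=
  Ear a b A m v g ∧ (∀ i, 1 ≤ i → i ≤ m → v i ≠ z) ∧ Con a b (A ∪ seg v 1 m)ᶜ ∧
      ∀ i, 1 ≤ i → i ≤ m → ∃ h y, Jn a b h (v i) y ∧ y ∉ A ∪ seg v 1 m ∧
        ∀ e, Cr a b {v i} e → e = g (i - 1) ∨ e = g i ∨ e = h

lemma GoodEar.rev {A : Finset W} {z : W} {m : ℕ} {v : ℕ → W} {g : ℕ → E}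
    (h : GoodEar a b A z m v g) :
    GoodEar a b A z m (fun i => v (m + 1 - i)) (fun i => g (m - i)) := by
  obtain ⟨h1, h2, h3, h4⟩ := h
  have hseg : seg (fun i => v (m + 1 - i)) 1 m = seg v 1 m := by
    ext x
    rw [mem_seg, mem_seg]
    constructor
    · rintro ⟨k, hk1, hk2, rfl⟩
      exact ⟨m + 1 - k, by omega, by omega, rfl⟩
    · rintro ⟨k, hk1, hk2, rfl⟩
      refine ⟨m + 1 - k, by omega, by omega, ?_⟩
      show v (m + 1 - (m + 1 - k)) = v k
      rw [show m + 1 - (m + 1 - k) = k by omega]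
  refine ⟨h1.rev, fun i hi1 hi2 => h2 _ (by omega) (by omega), by rw [hseg]; exact h3, ?_⟩
  intro i hi1 hi2
  obtain ⟨h, y, hj, hy, hall⟩ := h4 (m + 1 - i) (by omega) (by omega)
  refine ⟨h, y, hj, by rw [hseg]; exact hy, ?_⟩
  intro e he
  show e = g (m - (i - 1)) ∨ e = g (m - i) ∨ e = h
  rw [show m - (i - 1) = m + 1 - i by omega]
  rcases hall e he with h5 | h5 | h5
  · right; left
    rw [h5, show m + 1 - i - 1 = m - i by omega]
  · left; exact h5
  · right; right; exact h5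

/-- index function of an ear -/
lemma Ear.exists_ix {A : Finset W} {m : ℕ} {v : ℕ → W} {g : ℕ → E} (h : Ear a b A m v g) :
    ∃ ix : W → ℕ, ∀ i, 1 ≤ i → i ≤ m → ix (v i) = i := by
  classical
  refine ⟨fun y => if hy : ∃ i, 1 ≤ i ∧ i ≤ m ∧ v i = y then hy.choose else 0, ?_⟩
  intro i hi1 hi2
  have hy : ∃ j, 1 ≤ j ∧ j ≤ m ∧ v j = v i := ⟨i, hi1, hi2, rfl⟩
  simp only [dif_pos hy]
  obtain ⟨h1, h2, h3⟩ := hy.choose_spec
  exact h.inj _ _ h1 h2 hi1 hi2 h3

section Step

variable {r z : W} {ρ : E} {A : Finset W}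

/-- the step -/
theorem St.step (s : St a b r z ρ A) (hρ : Jn a b ρ r z) {m : ℕ} {v : ℕ → W} {g : ℕ → E}
    (h : GoodEar a b A z m v g) (hpos : s.pos (v (m + 1)) ≤ s.pos (v 0)) :
    Nonempty (St a b r z ρ (A ∪ seg v 1 m)) := by
  classical
  obtain ⟨hE, hz, hcon, hth⟩ := h
  obtain ⟨ix, hix⟩ := hE.exists_ix
  have hone := hE.one_le
  -- membership
  have hP : ∀ {i}, 1 ≤ i → i ≤ m → v i ∈ A ∪ seg v 1 m := fun h1 h2 =>
    Finset.mem_union_right _ (mem_seg.2 ⟨_, h1, h2, rfl⟩)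
  have hAP : ∀ {x}, x ∈ A → x ∈ A ∪ seg v 1 m := fun h1 => Finset.mem_union_left _ h1
  have hcase : ∀ {x}, x ∈ A ∪ seg v 1 m → x ∈ A ∨ ∃ i, 1 ≤ i ∧ i ≤ m ∧ x = v i := by
    intro x hx
    rw [Finset.mem_union] at hx
    rcases hx with hx | hx
    · exact Or.inl hx
    · obtain ⟨i, h1, h2, h3⟩ := mem_seg.1 hx
      exact Or.inr ⟨i, h1, h2, h3.symm⟩
  have hnA : ∀ {i}, 1 ≤ i → i ≤ m → v i ∉ A := fun h1 h2 => hE.nmem _ h1 h2
  have hsegA : ∀ {x j}, 1 ≤ j → x ∈ A → x ∉ seg v j m := by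
    intro x j hj hx h1
    obtain ⟨k, h2, h3, h4⟩ := mem_seg.1 h1
    exact hnA (by omega) h3 (h4 ▸ hx)
  have hvr : ∀ {i}, 1 ≤ i → i ≤ m → v i ≠ r := fun h1 h2 h3 => hnA h1 h2 (h3 ▸ s.rA)
  -- edges of the ear
  have hg_end : ∀ {i}, i ≤ m → ∀ {u w}, u ∈ A → w ∈ A → Jn a b (g i) u w → False := by
    intro i hi u w hu hw hj
    have h1 := hE.jn i hi
    by_cases h0 : i = 0
    · subst h0
      rcases hj.pair h1 with ⟨-, h2⟩ | ⟨h2, -⟩
      · exact hnA (le_refl 1) hone (h2 ▸ hw)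
      · exact hnA (le_refl 1) hone (h2 ▸ hu)
    · rcases hj.pair h1 with ⟨h2, -⟩ | ⟨-, h2⟩
      · exact hnA (by omega) hi (h2 ▸ hu)
      · exact hnA (by omega) hi (h2 ▸ hw)
  have hg_s1 : ∀ {i}, i ≤ m → g i ∉ s.S1 := by
    intro i hi h1
    obtain ⟨u, w, hu, hw, hj⟩ := s.s1_in _ h1
    exact hg_end hi hu hw hj
  have hg_s2 : ∀ {i}, i ≤ m → g i ∉ s.S2 := by
    intro i hi h1
    obtain ⟨u, w, hu, hw, hj⟩ := s.s2_in _ h1
    exact hg_end hi hu hw hj
  have hg_ne0 : ∀ {i}, 1 ≤ i → i ≤ m → g i ≠ g 0 := by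
    intro i hi1 hi2 h1
    by_cases him : i = m
    · subst him; exact hE.ne h1.symm
    · have h2 := hE.jn i hi2
      rw [h1] at h2
      rcases (hE.jn 0 (by omega)).pair h2 with ⟨h3, -⟩ | ⟨h3, -⟩
      · exact hnA hi1 hi2 (h3 ▸ hE.left)
      · exact hnA (by omega) (by omega) (h3 ▸ hE.left)
  have hg_nem : ∀ {i}, i < m → g i ≠ g m := by
    intro i hi h1
    by_cases hi0 : i = 0
    · subst hi0; exact hE.ne h1
    · have h2 := hE.jn i (by omega)
      rw [h1] at h2
      rcases (hE.jn m (le_refl _)).pair h2 with ⟨-, h3⟩ | ⟨-, h3⟩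
      · exact hnA (by omega) (by omega) (h3 ▸ hE.right)
      · exact hnA (by omega) (by omega) (h3 ▸ hE.right)
  -- edges between `A` and the ear
  have hbet : ∀ e u i, u ∈ A → 1 ≤ i → i ≤ m → Jn a b e u (v i) →
      (e = g 0 ∧ u = v 0) ∨ (e = g m ∧ u = v (m + 1)) := by
    intro e u i hu hi1 hi2 hj
    obtain ⟨h, y, hj', hy, hall⟩ := hth i hi1 hi2
    have hne : v i ≠ u := fun h1 => hnA hi1 hi2 (h1 ▸ hu)
    rcases hall e (cr_single hj.symm hne) with h1 | h1 | h1
    · left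
      have h2 := hE.jn_prev hi1 hi2
      rw [← h1] at h2
      have h3 := hj.symm.right_unique h2.symm
      by_cases hi : i = 1
      · subst hi
        exact ⟨h1, h3⟩
      · exact absurd (h3 ▸ hu) (hnA (by omega) (by omega))
    · right
      have h2 := hE.jn i hi2
      rw [← h1] at h2
      have h3 := hj.symm.right_unique h2
      by_cases hi : i = m
      · subst hi
        exact ⟨h1, h3⟩
      · exact absurd (h3 ▸ hu) (hnA (by omega) (by omega))
    · exfalso
      rw [h1] at hj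
      have h3 := hj.symm.right_unique hj'
      exact hy (hAP (h3 ▸ hu))
  -- the new data
  let D' : W → Finset W := fun y => if y ∈ A then (if v 0 ∈ s.D y then s.D y ∪ seg v 1 m else s.D y)
    else seg v (ix y) m
  let te' : W → E := fun y => if y ∈ A then s.te y else g (ix y - 1)
  let kb' : W → E := fun y => if y ∈ A then s.kb y else g m
  let pos' : W → ℕ := fun y => if y ∈ A then (if s.pos y ≤ s.pos (v 0) then s.pos y
    else s.pos y + m) else s.pos (v 0) + ix y
  let rk' : E → ℕ := fun e => if e = g m then A.card else s.rk e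
  have hD'A : ∀ {y}, y ∈ A → ∀ {x}, x ∈ A → (x ∈ D' y ↔ x ∈ s.D y) := by
    intro y hy x hx
    simp only [D', if_pos hy]
    by_cases h1 : v 0 ∈ s.D y
    · rw [if_pos h1, Finset.mem_union]
      constructor
      · rintro (h2 | h2)
        · exact h2
        · exact absurd h2 (hsegA (le_refl 1) hx)
      · exact Or.inl
    · rw [if_neg h1]
  have hD'P : ∀ {y}, y ∈ A → y ≠ r → ∀ {i}, 1 ≤ i → i ≤ m → (v i ∈ D' y ↔ v 0 ∈ s.D y) := by
    intro y hy hyr i hi1 hi2
    simp only [D', if_pos hy]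
    by_cases h1 : v 0 ∈ s.D y
    · rw [if_pos h1, Finset.mem_union]
      exact ⟨fun _ => h1, fun _ => Or.inr (mem_seg.2 ⟨i, hi1, hi2, rfl⟩)⟩
    · rw [if_neg h1]
      exact ⟨fun h2 => absurd (s.D_sub y hy hyr h2) (hnA hi1 hi2), fun h2 => absurd h2 h1⟩
  have hD'v : ∀ {j}, 1 ≤ j → j ≤ m → D' (v j) = seg v j m := by
    intro j hj1 hj2
    simp only [D', if_neg (hnA hj1 hj2), hix j hj1 hj2]
  have hmemv : ∀ {i j}, 1 ≤ i → i ≤ m → 1 ≤ j → (v i ∈ seg v j m ↔ j ≤ i) := by
    intro i j hi1 hi2 hj1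
    rw [mem_seg]
    constructor
    · rintro ⟨k, h1, h2, h3⟩
      have := hE.inj k i (by omega) h2 hi1 hi2 h3
      omega
    · intro h1
      exact ⟨i, h1, hi2, rfl⟩
  have hte'A : ∀ {y}, y ∈ A → te' y = s.te y := fun hy => if_pos hy
  have hte'v : ∀ {j}, 1 ≤ j → j ≤ m → te' (v j) = g (j - 1) := by
    intro j hj1 hj2
    simp only [te', if_neg (hnA hj1 hj2), hix j hj1 hj2]
  have hkb'A : ∀ {y}, y ∈ A → kb' y = s.kb y := fun hy => if_pos hy
  have hkb'v : ∀ {j}, 1 ≤ j → j ≤ m → kb' (v j) = g m := fun hj1 hj2 => if_neg (hnA hj1 hj2)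
  have hpos'v : ∀ {j}, 1 ≤ j → j ≤ m → pos' (v j) = s.pos (v 0) + j := by
    intro j hj1 hj2
    simp only [pos', if_neg (hnA hj1 hj2), hix j hj1 hj2]
  have hpos'A1 : ∀ {y}, y ∈ A → s.pos y ≤ s.pos (v 0) → pos' y = s.pos y := by
    intro y hy h1
    simp only [pos', if_pos hy, if_pos h1]
  have hpos'A2 : ∀ {y}, y ∈ A → ¬ s.pos y ≤ s.pos (v 0) → pos' y = s.pos y + m := by
    intro y hy h1
    simp only [pos', if_pos hy, if_neg h1]
  -- edges with both ends in `A`
  have hcrA : ∀ {y}, y ∈ A → ∀ {e u w}, u ∈ A → w ∈ A → Jn a b e u w →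
      (Cr a b (D' y) e ↔ Cr a b (s.D y) e) := by
    intro y hy e u w hu hw hj
    rw [hj.cr, hj.cr, hD'A hy hu, hD'A hy hw]
  refine ⟨{
    S1 := insert (g m) s.S1
    S2 := insert (g 0) s.S2
    pos := pos'
    rk := rk'
    te := te'
    kb := kb'
    D := D'
    rA := hAP s.rA
    zA := ?_
    con := hcon
    s1_in := ?_
    s2_in := ?_
    te_in := ?_
    te_s1 := ?_
    te_sp := ?_
    D_sub := ?_
    D_r := ?_
    D_te := ?_
    D_te' := ?_
    kb_s1 := ?_
    kb_cr := ?_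
    s2_sp := ?_
    s3_sp := ?_
    pos_inj := ?_
    rk_lt := ?_
    status := ?_ }⟩
  · -- zA
    intro h1
    rcases hcase h1 with h2 | ⟨i, hi1, hi2, h2⟩
    · exact s.zA h2
    · exact hz i hi1 hi2 h2.symm
  · -- s1_in
    intro e he
    rw [Finset.mem_insert] at he
    rcases he with rfl | he
    · exact ⟨v m, v (m + 1), hP hone (le_refl _), hAP hE.right, hE.jn m (le_refl _)⟩
    · obtain ⟨u, w, hu, hw, hj⟩ := s.s1_in e he
      exact ⟨u, w, hAP hu, hAP hw, hj⟩
  · -- s2_in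
    intro e he
    rw [Finset.mem_insert] at he
    rcases he with rfl | he
    · exact ⟨v 0, v 1, hAP hE.left, hP (le_refl _) hone, hE.jn 0 (by omega)⟩
    · obtain ⟨u, w, hu, hw, hj⟩ := s.s2_in e he
      exact ⟨u, w, hAP hu, hAP hw, hj⟩
  · -- te_in
    intro w hw hwr
    rcases hcase hw with h1 | ⟨i, hi1, hi2, rfl⟩
    · obtain ⟨u, u', hu, hu', hj⟩ := s.te_in w h1 hwr
      exact ⟨u, u', hAP hu, hAP hu', by rw [hte'A h1]; exact hj⟩
    · refine ⟨v (i - 1), v i, ?_, hP hi1 hi2, by rw [hte'v hi1 hi2]; exact hE.jn_prev hi1 hi2⟩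
      by_cases hi : i = 1
      · subst hi; exact hAP hE.left
      · exact hP (by omega) (by omega)
  · -- te_s1
    intro w hw hwr
    rw [Finset.mem_insert]
    push Not
    rcases hcase hw with h1 | ⟨i, hi1, hi2, rfl⟩
    · rw [hte'A h1]
      refine ⟨?_, s.te_s1 w h1 hwr⟩
      intro h2
      obtain ⟨u, u', hu, hu', hj⟩ := s.te_in w h1 hwr
      rw [h2] at hj
      exact hg_end (le_refl _) hu hu' hj
    · rw [hte'v hi1 hi2]
      exact ⟨hg_nem (by omega), hg_s1 (by omega)⟩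
  · -- te_sp
    intro X hX
    have h1 : ∀ v' ∈ A, (v' ∈ X ↔ r ∈ X) := s.te_sp X (by
      intro w hw hwr
      have := hX w (hAP hw) hwr
      rwa [hte'A hw] at this)
    have h2 : ∀ i, i ≤ m → (v i ∈ X ↔ r ∈ X) := by
      intro i
      induction i with
      | zero => intro _; exact h1 _ hE.left
      | succ i ih =>
        intro hi
        have h3 := hX (v (i + 1)) (hP (by omega) hi) (hvr (by omega) hi)
        rw [hte'v (by omega) hi, Nat.add_sub_cancel, (hE.jn i (by omega)).ncr] at h3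
        exact h3.symm.trans (ih (by omega))
    intro w hw
    rcases hcase hw with h3 | ⟨i, hi1, hi2, rfl⟩
    · exact h1 w h3
    · exact h2 i hi2
  · -- D_sub
    intro w hw hwr
    rcases hcase hw with h1 | ⟨i, hi1, hi2, rfl⟩
    · intro x hx
      simp only [D', if_pos h1] at hx
      by_cases h2 : v 0 ∈ s.D w
      · rw [if_pos h2, Finset.mem_union] at hx
        rcases hx with hx | hx
        · exact hAP (s.D_sub w h1 hwr hx)
        · exact Finset.mem_union_right _ hx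
      · rw [if_neg h2] at hx
        exact hAP (s.D_sub w h1 hwr hx)
    · rw [hD'v hi1 hi2]
      intro x hx
      obtain ⟨k, hk1, hk2, rfl⟩ := mem_seg.1 hx
      exact hP (by omega) hk2
  · -- D_r
    intro w hw hwr
    rcases hcase hw with h1 | ⟨i, hi1, hi2, rfl⟩
    · rw [hD'A h1 s.rA]
      exact s.D_r w h1 hwr
    · rw [hD'v hi1 hi2]
      exact hsegA hi1 s.rA
  · -- D_te
    intro w hw hwr
    rcases hcase hw with h1 | ⟨i, hi1, hi2, rfl⟩
    · obtain ⟨u, u', hu, hu', hj⟩ := s.te_in w h1 hwr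
      rw [hte'A h1, hcrA h1 hu hu' hj]
      exact s.D_te w h1 hwr
    · rw [hD'v hi1 hi2, hte'v hi1 hi2]
      refine cr_of_jn (hE.jn_prev hi1 hi2).symm ((hmemv hi1 hi2 hi1).2 (le_refl _)) ?_
      by_cases hi : i = 1
      · subst hi; exact hsegA (le_refl 1) hE.left
      · rw [hmemv (by omega) (by omega) hi1]; omega
  · -- D_te'
    intro w hw hwr w' hw' hwr' hne
    rcases hcase hw with h1 | ⟨i, hi1, hi2, rfl⟩ <;> rcases hcase hw' with h2 | ⟨j, hj1, hj2, rfl⟩
    · obtain ⟨u, u', hu, hu', hj⟩ := s.te_in w' h2 hwr'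
      rw [hte'A h2, hcrA h1 hu hu' hj]
      exact s.D_te' w h1 hwr w' h2 hwr' hne
    · rw [hte'v hj1 hj2, (hE.jn_prev hj1 hj2).ncr, hD'P h1 hwr hj1 hj2]
      by_cases hj : j = 1
      · subst hj
        exact hD'A h1 hE.left
      · exact hD'P h1 hwr (by omega) (by omega)
    · obtain ⟨u, u', hu, hu', hj⟩ := s.te_in w' h2 hwr'
      rw [hte'A h2, hj.ncr, hD'v hi1 hi2]
      exact ⟨fun h3 => absurd h3 (hsegA hi1 hu), fun h3 => absurd h3 (hsegA hi1 hu')⟩
    · rw [hte'v hj1 hj2, (hE.jn_prev hj1 hj2).ncr, hD'v hi1 hi2, hmemv hj1 hj2 hi1]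
      have hij : i ≠ j := fun h3 => hne (by rw [h3])
      by_cases hj : j = 1
      · subst hj
        constructor
        · intro h3; exact absurd h3 (hsegA hi1 hE.left)
        · intro h3; omega
      · rw [hmemv (by omega) (by omega) hi1]
        omega
  · -- kb_s1
    intro w hw hwr
    rw [Finset.mem_insert]
    rcases hcase hw with h1 | ⟨i, hi1, hi2, rfl⟩
    · right; rw [hkb'A h1]; exact s.kb_s1 w h1 hwr
    · left; exact hkb'v hi1 hi2
  · -- kb_cr
    intro w hw hwr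
    rcases hcase hw with h1 | ⟨i, hi1, hi2, rfl⟩
    · obtain ⟨u, u', hu, hu', hj⟩ := s.s1_in _ (s.kb_s1 w h1 hwr)
      rw [hkb'A h1, hcrA h1 hu hu' hj]
      exact s.kb_cr w h1 hwr
    · rw [hD'v hi1 hi2, hkb'v hi1 hi2]
      exact cr_of_jn (hE.jn m (le_refl _)) ((hmemv hone (le_refl _) hi1).2 hi2)
        (hsegA hi1 hE.right)
  · -- s2_sp
    intro X hX
    have h1 : ∀ v' ∈ A, (v' ∈ X ↔ r ∈ X) := s.s2_sp X (by
      intro e u w hu hw hj he
      refine hX e u w (hAP hu) (hAP hw) hj ?_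
      rw [Finset.mem_insert]
      push Not
      refine ⟨?_, he⟩
      intro h2
      rw [h2] at hj
      exact hg_end (Nat.zero_le _) hu hw hj)
    have h2 : ∀ k, k < m → (v (m - k) ∈ X ↔ r ∈ X) := by
      intro k
      induction k with
      | zero =>
        intro _
        have h3 := hX (g m) (v m) (v (m + 1)) (hP hone (le_refl _)) (hAP hE.right)
          (hE.jn m (le_refl _)) (by
            rw [Finset.mem_insert]
            push Not
            exact ⟨hE.ne.symm, hg_s2 (le_refl _)⟩)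
        rw [(hE.jn m (le_refl _)).ncr] at h3
        rw [Nat.sub_zero]
        exact h3.trans (h1 _ hE.right)
      | succ k ih =>
        intro hk
        have h4 := hE.jn (m - (k + 1)) (by omega)
        rw [show m - (k + 1) + 1 = m - k by omega] at h4
        have h3 := hX _ _ _ (hP (by omega) (by omega)) (hP (by omega) (by omega)) h4 (by
            rw [Finset.mem_insert]
            push Not
            exact ⟨hg_ne0 (by omega) (by omega), hg_s2 (by omega)⟩)
        rw [h4.ncr] at h3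
        exact h3.trans (ih (by omega))
    intro w hw
    rcases hcase hw with h3 | ⟨i, hi1, hi2, rfl⟩
    · exact h1 w h3
    · have h4 := h2 (m - i) (by omega)
      rwa [show m - (m - i) = i by omega] at h4
  · -- s3_sp
    intro X hX1 hX2 hX3
    have hPy : ∀ i, 1 ≤ i → i ≤ m → ∃ u, u ∉ A ∪ seg v 1 m ∧ (v i ∈ X ↔ u ∈ X) := by
      intro i hi1 hi2
      obtain ⟨h, y, hj, hy, -⟩ := hth i hi1 hi2
      refine ⟨y, hy, ?_⟩
      have h1 := hX3 h (v i) y (hP hi1 hi2) hy hj (by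
        intro h2
        rw [h2] at hj
        rcases hj.pair hρ with ⟨h3, -⟩ | ⟨h3, -⟩
        · exact hvr hi1 hi2 h3
        · exact hz i hi1 hi2 h3)
      rwa [hj.ncr] at h1
    have h1 : ∀ v' ∈ A, ∃ u, u ∉ A ∧ (v' ∈ X ↔ u ∈ X) := s.s3_sp X
      (fun e he => hX1 e (Finset.mem_insert_of_mem he))
      (fun e he => hX2 e (Finset.mem_insert_of_mem he)) (by
        intro e u w hu hw hj he
        by_cases hwP : w ∈ A ∪ seg v 1 m
        · rcases hcase hwP with h2 | ⟨i, hi1, hi2, rfl⟩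
          · exact absurd h2 hw
          · rcases hbet e u i hu hi1 hi2 hj with ⟨h2, -⟩ | ⟨h2, -⟩
            · rw [h2]; exact hX2 _ (Finset.mem_insert_self _ _)
            · rw [h2]; exact hX1 _ (Finset.mem_insert_self _ _)
        · exact hX3 e u w (hAP hu) hwP hj he)
    intro w hw
    rcases hcase hw with h3 | ⟨i, hi1, hi2, rfl⟩
    · obtain ⟨u, hu, huw⟩ := h1 w h3
      by_cases huP : u ∈ A ∪ seg v 1 m
      · rcases hcase huP with h2 | ⟨i, hi1, hi2, rfl⟩
        · exact absurd h2 hu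
        · obtain ⟨y, hy, hyw⟩ := hPy i hi1 hi2
          exact ⟨y, hy, huw.trans hyw⟩
      · exact ⟨u, huP, huw⟩
    · exact hPy i hi1 hi2
  · -- pos_inj
    intro x hx y hy hxy
    rcases hcase hx with h1 | ⟨i, hi1, hi2, rfl⟩ <;> rcases hcase hy with h2 | ⟨j, hj1, hj2, rfl⟩
    · by_cases h3 : s.pos x ≤ s.pos (v 0) <;> by_cases h4 : s.pos y ≤ s.pos (v 0)
      · rw [hpos'A1 h1 h3, hpos'A1 h2 h4] at hxy
        exact s.pos_inj x h1 y h2 hxy
      · rw [hpos'A1 h1 h3, hpos'A2 h2 h4] at hxy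
        omega
      · rw [hpos'A2 h1 h3, hpos'A1 h2 h4] at hxy
        omega
      · rw [hpos'A2 h1 h3, hpos'A2 h2 h4] at hxy
        exact s.pos_inj x h1 y h2 (by omega)
    · by_cases h3 : s.pos x ≤ s.pos (v 0)
      · rw [hpos'A1 h1 h3, hpos'v hj1 hj2] at hxy
        omega
      · rw [hpos'A2 h1 h3, hpos'v hj1 hj2] at hxy
        omega
    · by_cases h3 : s.pos y ≤ s.pos (v 0)
      · rw [hpos'A1 h2 h3, hpos'v hi1 hi2] at hxy
        omega
      · rw [hpos'A2 h2 h3, hpos'v hi1 hi2] at hxy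
        omega
    · rw [hpos'v hi1 hi2, hpos'v hj1 hj2] at hxy
      have : i = j := by omega
      rw [this]
  · -- rk_lt
    have hcard : A.card < (A ∪ seg v 1 m).card := by
      apply Finset.card_lt_card
      refine ⟨Finset.subset_union_left, ?_⟩
      intro h1
      exact hnA (le_refl 1) hone (h1 (hP (le_refl 1) hone))
    intro e he
    rw [Finset.mem_insert] at he
    by_cases h1 : e = g m
    · simp only [rk', if_pos h1]; exact hcard
    · simp only [rk', if_neg h1]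
      rcases he with he | he
      · exact absurd he h1
      · exact (s.rk_lt e he).trans hcard
  · -- status
    intro e he
    by_cases h1 : e = g m
    · right
      obtain ⟨h, y, hj, hy, -⟩ := hth m hone (le_refl _)
      refine ⟨v m, hP hone (le_refl _), ⟨h, y, hj, hy⟩, ?_⟩
      intro w hw hwr hkw
      rcases hcase hw with h2 | ⟨i, hi1, hi2, rfl⟩
      · rw [hkb'A h2, h1] at hkw
        exact absurd (hkw ▸ s.kb_s1 w h2 hwr) (hg_s1 (le_refl _))
      · rw [hD'v hi1 hi2]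
        refine ⟨(hmemv hone (le_refl _) hi1).2 hi2, ?_⟩
        intro x hx
        obtain ⟨k, hk1, hk2, rfl⟩ := mem_seg.1 hx
        rw [hpos'v (by omega) hk2, hpos'v hone (le_refl _)]
        omega
    · rw [Finset.mem_insert] at he
      have he' : e ∈ s.S1 := by
        rcases he with he | he
        · exact absurd he h1
        · exact he
      have hkA : ∀ w ∈ A ∪ seg v 1 m, w ≠ r → kb' w = e → w ∈ A ∧ s.kb w = e := by
        intro w hw hwr hkw
        rcases hcase hw with h2 | ⟨i, hi1, hi2, rfl⟩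
        · exact ⟨h2, by rw [← hkb'A h2]; exact hkw⟩
        · rw [hkb'v hi1 hi2] at hkw
          exact absurd hkw.symm h1
      have hrk : rk' e = s.rk e := if_neg h1
      rcases s.status e he' with ⟨e', he1, he2, he3⟩ | ⟨ω, hω, ⟨h, y, hj, hy⟩, hω2⟩
      · left
        refine ⟨e', Finset.mem_insert_of_mem he1, ?_, ?_⟩
        · have h2 : e' ≠ g m := fun h2 => hg_s1 (le_refl _) (h2 ▸ he1)
          have h3 : rk' e' = s.rk e' := if_neg h2
          rw [hrk, h3]; exact he2
        · intro w hw hwr hkw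
          obtain ⟨hwA, hkw'⟩ := hkA w hw hwr hkw
          obtain ⟨u, u', hu, hu', hj⟩ := s.s1_in e' he1
          rw [hcrA hwA hu hu' hj]
          exact he3 w hwA hwr hkw'
      · by_cases hω0 : ω = v 0
        · right
          obtain ⟨h', y', hj', hy', -⟩ := hth m hone (le_refl _)
          refine ⟨v m, hP hone (le_refl _), ⟨h', y', hj', hy'⟩, ?_⟩
          intro w hw hwr hkw
          obtain ⟨hwA, hkw'⟩ := hkA w hw hwr hkw
          obtain ⟨h2, h3⟩ := hω2 w hwA hwr hkw'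
          rw [hω0] at h2 h3
          refine ⟨(hD'P hwA hwr hone (le_refl _)).2 h2, ?_⟩
          intro x hx
          rw [hpos'v hone (le_refl _)]
          simp only [D', if_pos hwA, if_pos h2, Finset.mem_union] at hx
          rcases hx with hx | hx
          · have h4 := h3 x hx
            rw [hpos'A1 (s.D_sub w hwA hwr hx) h4]
            omega
          · obtain ⟨k, hk1, hk2, rfl⟩ := mem_seg.1 hx
            rw [hpos'v hk1 hk2]
            omega
        · by_cases hω1 : ω = v (m + 1)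
          · left
            refine ⟨g m, Finset.mem_insert_self _ _, ?_, ?_⟩
            · have h2 : rk' (g m) = A.card := if_pos rfl
              rw [hrk, h2]
              exact s.rk_lt e he'
            · intro w hw hwr hkw
              obtain ⟨hwA, hkw'⟩ := hkA w hw hwr hkw
              obtain ⟨h2, h3⟩ := hω2 w hwA hwr hkw'
              have h4 : v 0 ∉ s.D w := by
                intro h5
                have h6 := h3 _ h5
                rw [hω1] at h6
                have h7 := s.pos_inj (v 0) hE.left (v (m + 1)) hE.right (by omega)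
                exact hω0 (hω1.trans h7.symm)
              apply cr_of_jn (hE.jn m (le_refl _)).symm
              · rw [hD'A hwA hE.right, ← hω1]; exact h2
              · rw [hD'P hwA hwr hone (le_refl _)]; exact h4
          · right
            refine ⟨ω, hAP hω, ⟨h, y, hj, ?_⟩, ?_⟩
            · intro h2
              rcases hcase h2 with h3 | ⟨i, hi1, hi2, rfl⟩
              · exact hy h3
              · rcases hbet h ω i hω hi1 hi2 hj with ⟨-, h3⟩ | ⟨-, h3⟩
                · exact hω0 h3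
                · exact hω1 h3
            · intro w hw hwr hkw
              obtain ⟨hwA, hkw'⟩ := hkA w hw hwr hkw
              obtain ⟨h2, h3⟩ := hω2 w hwA hwr hkw'
              refine ⟨(hD'A hwA hω).2 h2, ?_⟩
              intro x hx
              by_cases hxA : x ∈ A
              · have h4 := h3 x ((hD'A hwA hxA).1 hx)
                by_cases h5 : s.pos x ≤ s.pos (v 0) <;> by_cases h6 : s.pos ω ≤ s.pos (v 0)
                · rw [hpos'A1 hxA h5, hpos'A1 hω h6]; exact h4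
                · rw [hpos'A1 hxA h5, hpos'A2 hω h6]; omega
                · omega
                · rw [hpos'A2 hxA h5, hpos'A2 hω h6]; omega
              · have h7 : v 0 ∈ s.D w := by
                  by_contra h8
                  simp only [D', if_pos hwA, if_neg h8] at hx
                  exact hxA (s.D_sub w hwA hwr hx)
                simp only [D', if_pos hwA, if_pos h7, Finset.mem_union] at hx
                rcases hx with hx | hx
                · exact absurd (s.D_sub w hwA hwr hx) hxA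
                · obtain ⟨k, hk1, hk2, rfl⟩ := mem_seg.1 hx
                  have h8 := h3 _ h7
                  have h9 : s.pos (v 0) ≠ s.pos ω := fun h9 =>
                    hω0 (s.pos_inj _ hE.left _ hω h9).symm
                  rw [hpos'v hk1 hk2, hpos'A2 hω (by omega)]
                  omega

/-- the step in general position -/
theorem St.step' (s : St a b r z ρ A) (h3 : TEC a b) (hd : ∀ v, cn a b univ {v} = 3)
    (hρ : Jn a b ρ r z) {w0 : W} (hw0 : w0 ∉ A) (hwz : w0 ≠ z) :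
    ∃ A' : Finset W, A ⊂ A' ∧ Nonempty (St a b r z ρ A') := by
  obtain ⟨m, v, g, h⟩ := exists_good_ear h3 hd s.zA s.rA hρ hw0 hwz s.con
  have hG : GoodEar a b A z m v g := h
  have key : ∀ (v : ℕ → W) (g : ℕ → E), GoodEar a b A z m v g → A ⊂ A ∪ seg v 1 m := by
    intro v g hg
    refine ⟨Finset.subset_union_left, ?_⟩
    intro h1
    exact hg.1.nmem 1 (le_refl 1) hg.1.one_le (h1 (Finset.mem_union_right _
      (mem_seg.2 ⟨1, le_refl 1, hg.1.one_le, rfl⟩)))
  rcases Nat.le_total (s.pos (v (m + 1))) (s.pos (v 0)) with h1 | h1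
  · exact ⟨_, key v g hG, s.step hρ hG h1⟩
  · refine ⟨_, key _ _ hG.rev, s.step hρ hG.rev ?_⟩
    show s.pos (v (m + 1 - (m + 1))) ≤ s.pos (v (m + 1 - 0))
    rw [Nat.sub_self, Nat.sub_zero]; exact h1

end Step

end Pool.Agent.N411.EC
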